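import Pool.Agent.Helper73.RoomDefs

set_option autoImplicit false

namespace Pool.Agent.Helper73.RoomSq

section transport

variable {ι ι' S S' : Type*}

/-- Transport of a Room square along bijections. -/
def transport (e : ι' ≃ ι) (f : S ≃ S') (M : ι → ι → Option (Sym2 S)) :
    ι' → ι' → Option (Sym2 S') := fun i j => (M (e i) (e j)).map (Sym2.map f)

lemma transport_eq_some (e : ι' ≃ ι) (f : S ≃ S') (M : ι → ι → Option (Sym2 S)) (i j : ι')
    (p : Sym2 S') :
    transport e f M i j = some p ↔ M (e i) (e j) = some (Sym2.map f.symm p) := by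
  unfold transport
  constructor
  · intro h
    obtain ⟨q, hq, rfl⟩ := Option.map_eq_some_iff.mp h
    rw [hq, Sym2.map_map]
    simp
  · intro h
    rw [h, Option.map_some, Sym2.map_map]
    simp

lemma IsRoomSquare.transport {M : ι → ι → Option (Sym2 S)} (hM : IsRoomSquare M) (e : ι' ≃ ι)
    (f : S ≃ S') : IsRoomSquare (transport e f M) where
  distinct := by
    intro i j p h hp
    rw [transport_eq_some] at h
    apply hM.distinct _ _ _ h
    induction p using Sym2.ind with
    | _ x y =>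
      rw [Sym2.map_mk]
      rw [Sym2.mk_isDiag_iff] at hp ⊢
      simp [hp]
  pairs := by
    intro x y hxy
    obtain ⟨c, hc, hu⟩ := hM.pairs (f.symm x) (f.symm y) (by simpa using hxy)
    refine ⟨(e.symm c.1, e.symm c.2), ?_, ?_⟩
    · show RoomSq.transport e f M (e.symm c.1) (e.symm c.2) = _
      rw [transport_eq_some]
      simpa using hc
    · intro c' hc'
      have hc' : RoomSq.transport e f M c'.1 c'.2 = _ := hc'
      rw [transport_eq_some] at hc'
      have := hu (e c'.1, e c'.2) (by simpa using hc')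
      rw [← this]
      simp
  rows := by
    intro i x
    obtain ⟨j, ⟨p, hp, hx⟩, hu⟩ := hM.rows (e i) (f.symm x)
    refine ⟨e.symm j, ⟨Sym2.map f p, ?_, ?_⟩, ?_⟩
    · rw [transport_eq_some]
      simp [Sym2.map_map, hp]
    · rw [Sym2.mem_map]
      exact ⟨_, hx, by simp⟩
    · rintro j' ⟨q, hq, hxq⟩
      rw [transport_eq_some] at hq
      have := hu (e j') ⟨_, hq, by rw [Sym2.mem_map]; exact ⟨x, hxq, rfl⟩⟩
      rw [← this]; simp
  cols := by
    intro i x
    obtain ⟨j, ⟨p, hp, hx⟩, hu⟩ := hM.cols (e i) (f.symm x)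
    refine ⟨e.symm j, ⟨Sym2.map f p, ?_, ?_⟩, ?_⟩
    · rw [transport_eq_some]
      simp [Sym2.map_map, hp]
    · rw [Sym2.mem_map]
      exact ⟨_, hx, by simp⟩
    · rintro j' ⟨q, hq, hxq⟩
      rw [transport_eq_some] at hq
      have := hu (e j') ⟨_, hq, by rw [Sym2.mem_map]; exact ⟨x, hxq, rfl⟩⟩
      rw [← this]; simp

end transport

section cyclotomic

variable {F : Type*} [Field F] [DecidableEq F]

/-- The cyclotomic array over a field: the cell `(g, h)` with `d = g - h` holds `{∞, g}` if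
`d = 0`, `{g + a₀ d, g + b₀ d}` if `d ^ E = v₀`, `{g + a₁ d, g + b₁ d}` if `d ^ E = v₁`, and is
empty otherwise. -/
def cyc (E : ℕ) (v₀ a₀ b₀ v₁ a₁ b₁ : F) (g h : F) : Option (Sym2 (Option F)) :=
  if g = h then some s(none, some g)
  else if (g - h) ^ E = v₀ then some s(some (g + a₀ * (g - h)), some (g + b₀ * (g - h)))
  else if (g - h) ^ E = v₁ then some s(some (g + a₁ * (g - h)), some (g + b₁ * (g - h)))
  else none

/-- Membership of the field element `g + t` in the cell `(g, g - d)`, `d ≠ 0`. -/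
def Hit (E : ℕ) (v₀ a₀ b₀ v₁ a₁ b₁ : F) (t d : F) : Prop :=
  (d ^ E = v₀ ∧ (t = a₀ * d ∨ t = b₀ * d)) ∨ (d ^ E = v₁ ∧ (t = a₁ * d ∨ t = b₁ * d))

variable {E : ℕ} {v₀ a₀ b₀ v₁ a₁ b₁ : F}

omit [DecidableEq F] in
lemma pair_unique_g (h2 : (2 : F) ≠ 0) (hv : v₀ ≠ v₁) (hab₀ : a₀ ≠ b₀) (hab₁ : a₁ ≠ b₁)
    {x y d g g' : F} (hd : d ≠ 0)
    (h : (d ^ E = v₀ ∧ ((x = g + a₀ * d ∧ y = g + b₀ * d) ∨ (x = g + b₀ * d ∧ y = g + a₀ * d))) ∨
      (d ^ E = v₁ ∧ ((x = g + a₁ * d ∧ y = g + b₁ * d) ∨ (x = g + b₁ * d ∧ y = g + a₁ * d))))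
    (h' : (d ^ E = v₀ ∧ ((x = g' + a₀ * d ∧ y = g' + b₀ * d) ∨
        (x = g' + b₀ * d ∧ y = g' + a₀ * d))) ∨
      (d ^ E = v₁ ∧ ((x = g' + a₁ * d ∧ y = g' + b₁ * d) ∨
        (x = g' + b₁ * d ∧ y = g' + a₁ * d)))) : g = g' := by
  have key : ∀ a b : F, a ≠ b → (x = g + a * d ∧ y = g + b * d) →
      (x = g' + b * d ∧ y = g' + a * d) → False := by
    rintro a b hab ⟨h1, h3⟩ ⟨h4, h5⟩
    have h6 : 2 * ((a - b) * d) = 0 := by linear_combination h4 - h1 + h3 - h5
    rcases mul_eq_zero.mp h6 with h7 | h7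
    · exact h2 h7
    · rcases mul_eq_zero.mp h7 with h8 | h8
      · exact hab (sub_eq_zero.mp h8)
      · exact hd h8
  rcases h with ⟨he, h | h⟩ | ⟨he, h | h⟩ <;> rcases h' with ⟨he', h' | h'⟩ | ⟨he', h' | h'⟩
  · linear_combination h'.1 - h.1
  · exact (key _ _ hab₀ h h').elim
  · exact absurd (he.symm.trans he') hv
  · exact absurd (he.symm.trans he') hv
  · exact (key _ _ hab₀.symm h h').elim
  · linear_combination h'.1 - h.1
  · exact absurd (he.symm.trans he') hv
  · exact absurd (he.symm.trans he') hv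
  · exact absurd (he'.symm.trans he) hv
  · exact absurd (he'.symm.trans he) hv
  · linear_combination h'.1 - h.1
  · exact (key _ _ hab₁ h h').elim
  · exact absurd (he'.symm.trans he) hv
  · exact absurd (he'.symm.trans he) hv
  · exact (key _ _ hab₁.symm h h').elim
  · linear_combination h'.1 - h.1

lemma cyc_isRoomSquare (h2 : (2 : F) ≠ 0) (hE : E ≠ 0) (hv₀ : v₀ ≠ 0) (hv₁ : v₁ ≠ 0) (hv : v₀ ≠ v₁)
    (ha₀ : a₀ ≠ 0) (hb₀ : b₀ ≠ 0) (ha₁ : a₁ ≠ 0) (hb₁ : b₁ ≠ 0)
    (ha₀' : 1 + a₀ ≠ 0) (hb₀' : 1 + b₀ ≠ 0) (ha₁' : 1 + a₁ ≠ 0) (hb₁' : 1 + b₁ ≠ 0)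
    (hab₀ : a₀ ≠ b₀) (hab₁ : a₁ ≠ b₁)
    (hrow : ∀ t : F, t ≠ 0 → ∃! d, Hit E v₀ a₀ b₀ v₁ a₁ b₁ t d)
    (hcol : ∀ t : F, t ≠ 0 → ∃! d, Hit E v₀ (1 + a₀) (1 + b₀) v₁ (1 + a₁) (1 + b₁) t d)
    (hpair : ∀ t : F, t ≠ 0 → ∃! d, Hit E v₀ (a₀ - b₀) (b₀ - a₀) v₁ (a₁ - b₁) (b₁ - a₁) t d) :
    IsRoomSquare (cyc E v₀ a₀ b₀ v₁ a₁ b₁) := by
  -- description of the cells
  have hdiag : ∀ g, cyc E v₀ a₀ b₀ v₁ a₁ b₁ g g = some s(none, some g) := fun g => by simp [cyc]
  have hv0E : ∀ d : F, d ^ E = v₀ → d ≠ 0 := by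
    rintro d hd rfl; rw [zero_pow hE] at hd; exact hv₀ hd.symm
  have hv1E : ∀ d : F, d ^ E = v₁ → d ≠ 0 := by
    rintro d hd rfl; rw [zero_pow hE] at hd; exact hv₁ hd.symm
  have hc0 : ∀ g h, (g - h) ^ E = v₀ → cyc E v₀ a₀ b₀ v₁ a₁ b₁ g h =
      some s(some (g + a₀ * (g - h)), some (g + b₀ * (g - h))) := by
    intro g h hd
    have : g ≠ h := fun hgh => hv0E _ hd (sub_eq_zero.mpr hgh)
    simp [cyc, this, hd]
  have hc1 : ∀ g h, (g - h) ^ E = v₁ → cyc E v₀ a₀ b₀ v₁ a₁ b₁ g h =
      some s(some (g + a₁ * (g - h)), some (g + b₁ * (g - h))) := by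
    intro g h hd
    have h1 : g ≠ h := fun hgh => hv1E _ hd (sub_eq_zero.mpr hgh)
    simp [cyc, h1, hd, Ne.symm hv]
  have hmem : ∀ (g h x : F), (∃ p, cyc E v₀ a₀ b₀ v₁ a₁ b₁ g h = some p ∧ some x ∈ p) ↔
      ((g = h ∧ x = g) ∨ Hit E v₀ a₀ b₀ v₁ a₁ b₁ (x - g) (g - h)) := by
    intro g h x
    constructor
    · rintro ⟨p, hp, hx⟩
      unfold cyc at hp
      split_ifs at hp with h1 h2 h3
      · left
        rw [← Option.some.inj hp] at hx
        rw [Sym2.mem_iff] at hx
        rcases hx with hx | hx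
        · exact absurd hx (by simp)
        · exact ⟨h1, Option.some.inj hx⟩
      · right; left
        rw [← Option.some.inj hp, Sym2.mem_iff] at hx
        refine ⟨h2, ?_⟩
        rcases hx with hx | hx
        · left; rw [Option.some.inj hx]; ring
        · right; rw [Option.some.inj hx]; ring
      · right; right
        rw [← Option.some.inj hp, Sym2.mem_iff] at hx
        refine ⟨h3, ?_⟩
        rcases hx with hx | hx
        · left; rw [Option.some.inj hx]; ring
        · right; rw [Option.some.inj hx]; ring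
    · rintro (⟨rfl, rfl⟩ | ⟨hd, hx⟩ | ⟨hd, hx⟩)
      · exact ⟨_, hdiag _, by simp⟩
      · refine ⟨_, hc0 g h hd, ?_⟩
        rw [Sym2.mem_iff]
        rcases hx with hx | hx
        · left; rw [← hx]; simp
        · right; rw [← hx]; simp
      · refine ⟨_, hc1 g h hd, ?_⟩
        rw [Sym2.mem_iff]
        rcases hx with hx | hx
        · left; rw [← hx]; simp
        · right; rw [← hx]; simp
  have hmemnone : ∀ (g h : F), (∃ p, cyc E v₀ a₀ b₀ v₁ a₁ b₁ g h = some p ∧ none ∈ p) ↔ g = h := by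
    intro g h
    constructor
    · rintro ⟨p, hp, hx⟩
      unfold cyc at hp
      split_ifs at hp with h1 h2 h3
      · exact h1
      · rw [← Option.some.inj hp, Sym2.mem_iff] at hx
        simp at hx
      · rw [← Option.some.inj hp, Sym2.mem_iff] at hx
        simp at hx
    · rintro rfl
      exact ⟨_, hdiag _, by simp⟩
  constructor
  · -- distinct
    intro g h p hp hdg
    unfold cyc at hp
    split_ifs at hp with h1 h2 h3
    · rw [← Option.some.inj hp, Sym2.mk_isDiag_iff] at hdg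
      simp at hdg
    · rw [← Option.some.inj hp, Sym2.mk_isDiag_iff] at hdg
      have h4 := Option.some.inj hdg
      have h5 : (a₀ - b₀) * (g - h) = 0 := by linear_combination h4
      rcases mul_eq_zero.mp h5 with h6 | h6
      · exact hab₀ (sub_eq_zero.mp h6)
      · exact hv0E _ h2 h6
    · rw [← Option.some.inj hp, Sym2.mk_isDiag_iff] at hdg
      have h4 := Option.some.inj hdg
      have h5 : (a₁ - b₁) * (g - h) = 0 := by linear_combination h4
      rcases mul_eq_zero.mp h5 with h6 | h6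
      · exact hab₁ (sub_eq_zero.mp h6)
      · exact hv1E _ h3 h6
  · -- pairs
    have hnone : ∀ y : F, ∃! c : F × F,
        cyc E v₀ a₀ b₀ v₁ a₁ b₁ c.1 c.2 = some s(none, some y) := by
      intro y
      refine ⟨(y, y), hdiag y, ?_⟩
      rintro ⟨g, h⟩ hgh
      have h1 := (hmemnone g h).mp ⟨_, hgh, by simp⟩
      subst h1
      rw [hdiag] at hgh
      have h2 := Option.some.inj hgh
      rw [Sym2.eq_iff] at h2
      rcases h2 with ⟨_, h2⟩ | ⟨h2, _⟩
      · have h3 := Option.some.inj h2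
        exact Prod.ext h3 h3
      · simp at h2
    intro x y hxy
    rcases x with _ | x
    · rcases y with _ | y
      · exact absurd rfl hxy
      · exact hnone y
    · rcases y with _ | y
      · have := hnone x
        simpa [Sym2.eq_swap] using this
      · have hxy' : x - y ≠ 0 := fun h => hxy (by rw [sub_eq_zero.mp h])
        -- description of the cells holding `{x, y}`
        have hcell : ∀ g h : F, cyc E v₀ a₀ b₀ v₁ a₁ b₁ g h = some s(some x, some y) ↔
            (((g - h) ^ E = v₀ ∧ ((x = g + a₀ * (g - h) ∧ y = g + b₀ * (g - h)) ∨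
              (x = g + b₀ * (g - h) ∧ y = g + a₀ * (g - h)))) ∨
            ((g - h) ^ E = v₁ ∧ ((x = g + a₁ * (g - h) ∧ y = g + b₁ * (g - h)) ∨
              (x = g + b₁ * (g - h) ∧ y = g + a₁ * (g - h))))) := by
          intro g h
          constructor
          · intro hp
            unfold cyc at hp
            split_ifs at hp with h1 h3 h4
            · have h5 := Option.some.inj hp
              rw [Sym2.eq_iff] at h5
              simp at h5
            · have h5 := Option.some.inj hp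
              rw [Sym2.eq_iff] at h5
              left
              refine ⟨h3, ?_⟩
              rcases h5 with ⟨h6, h7⟩ | ⟨h6, h7⟩
              · left; exact ⟨(Option.some.inj h6).symm, (Option.some.inj h7).symm⟩
              · right; exact ⟨(Option.some.inj h7).symm, (Option.some.inj h6).symm⟩
            · have h5 := Option.some.inj hp
              rw [Sym2.eq_iff] at h5
              right
              refine ⟨h4, ?_⟩
              rcases h5 with ⟨h6, h7⟩ | ⟨h6, h7⟩
              · left; exact ⟨(Option.some.inj h6).symm, (Option.some.inj h7).symm⟩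
              · right; exact ⟨(Option.some.inj h7).symm, (Option.some.inj h6).symm⟩
          · rintro (⟨hd, ⟨h6, h7⟩ | ⟨h6, h7⟩⟩ | ⟨hd, ⟨h6, h7⟩ | ⟨h6, h7⟩⟩)
            · rw [hc0 g h hd, ← h6, ← h7]
            · rw [hc0 g h hd, ← h6, ← h7, Sym2.eq_swap]
            · rw [hc1 g h hd, ← h6, ← h7]
            · rw [hc1 g h hd, ← h6, ← h7, Sym2.eq_swap]
        have hex : ∃ g d, (d ^ E = v₀ ∧ ((x = g + a₀ * d ∧ y = g + b₀ * d) ∨
              (x = g + b₀ * d ∧ y = g + a₀ * d))) ∨
            (d ^ E = v₁ ∧ ((x = g + a₁ * d ∧ y = g + b₁ * d) ∨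
              (x = g + b₁ * d ∧ y = g + a₁ * d))) := by
          obtain ⟨d, hd, -⟩ := hpair (x - y) hxy'
          rcases hd with ⟨he, h | h⟩ | ⟨he, h | h⟩
          · exact ⟨x - a₀ * d, d, Or.inl ⟨he, Or.inl ⟨by ring, by linear_combination -h⟩⟩⟩
          · exact ⟨x - b₀ * d, d, Or.inl ⟨he, Or.inr ⟨by ring, by linear_combination -h⟩⟩⟩
          · exact ⟨x - a₁ * d, d, Or.inr ⟨he, Or.inl ⟨by ring, by linear_combination -h⟩⟩⟩
          · exact ⟨x - b₁ * d, d, Or.inr ⟨he, Or.inr ⟨by ring, by linear_combination -h⟩⟩⟩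
        have hhit : ∀ g d, ((d ^ E = v₀ ∧ ((x = g + a₀ * d ∧ y = g + b₀ * d) ∨
              (x = g + b₀ * d ∧ y = g + a₀ * d))) ∨
            (d ^ E = v₁ ∧ ((x = g + a₁ * d ∧ y = g + b₁ * d) ∨
              (x = g + b₁ * d ∧ y = g + a₁ * d)))) →
            Hit E v₀ (a₀ - b₀) (b₀ - a₀) v₁ (a₁ - b₁) (b₁ - a₁) (x - y) d := by
          rintro g d (⟨he, ⟨h6, h7⟩ | ⟨h6, h7⟩⟩ | ⟨he, ⟨h6, h7⟩ | ⟨h6, h7⟩⟩)
          · exact Or.inl ⟨he, Or.inl (by rw [h6, h7]; ring)⟩
          · exact Or.inl ⟨he, Or.inr (by rw [h6, h7]; ring)⟩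
          · exact Or.inr ⟨he, Or.inl (by rw [h6, h7]; ring)⟩
          · exact Or.inr ⟨he, Or.inr (by rw [h6, h7]; ring)⟩
        obtain ⟨g, d, hgd⟩ := hex
        refine ⟨(g, g - d), ?_, ?_⟩
        · show cyc E v₀ a₀ b₀ v₁ a₁ b₁ g (g - d) = _
          rw [hcell, sub_sub_cancel]
          exact hgd
        · rintro ⟨g', h'⟩ hc
          have hc : cyc E v₀ a₀ b₀ v₁ a₁ b₁ g' h' = _ := hc
          rw [hcell] at hc
          have hd1 := hhit g d hgd
          have hd2 := hhit g' (g' - h') hc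
          have hdd : g' - h' = d := (hpair (x - y) hxy').unique hd2 hd1
          rw [hdd] at hc
          have hd0 : d ≠ 0 := by
            rcases hd1 with ⟨he, _⟩ | ⟨he, _⟩
            · exact hv0E _ he
            · exact hv1E _ he
          have hg := pair_unique_g h2 hv hab₀ hab₁ hd0 hc hgd
          subst hg
          refine Prod.ext rfl ?_
          show h' = g' - d
          rw [← hdd]; ring
  · intro g x
    rcases x with _ | x
    · exact ⟨g, (hmemnone g g).mpr rfl, fun h hh => ((hmemnone g h).mp hh).symm⟩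
    · by_cases hx : x = g
      · subst hx
        refine ⟨x, (hmem x x x).mpr (Or.inl ⟨rfl, rfl⟩), ?_⟩
        intro h hh
        rcases (hmem x h x).mp hh with h1 | h1
        · exact h1.1.symm
        · exfalso
          rw [sub_self] at h1
          rcases h1 with ⟨h2, h3 | h3⟩ | ⟨h2, h3 | h3⟩
          · exact (mul_ne_zero ha₀ (hv0E _ h2)) h3.symm
          · exact (mul_ne_zero hb₀ (hv0E _ h2)) h3.symm
          · exact (mul_ne_zero ha₁ (hv1E _ h2)) h3.symm
          · exact (mul_ne_zero hb₁ (hv1E _ h2)) h3.symm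
      · obtain ⟨d, hd, hu⟩ := hrow (x - g) (sub_ne_zero.mpr hx)
        refine ⟨g - d, (hmem g (g - d) x).mpr (Or.inr ?_), ?_⟩
        · rw [sub_sub_cancel]; exact hd
        · intro h hh
          rcases (hmem g h x).mp hh with h1 | h1
          · exact absurd h1.2 hx
          · rw [← hu _ h1]; ring
  · intro h x
    rcases x with _ | x
    · exact ⟨h, (hmemnone h h).mpr rfl, fun g hg => (hmemnone g h).mp hg⟩
    · have hconv : ∀ d, Hit E v₀ a₀ b₀ v₁ a₁ b₁ (x - (h + d)) d ↔
          Hit E v₀ (1 + a₀) (1 + b₀) v₁ (1 + a₁) (1 + b₁) (x - h) d := by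
        intro d
        unfold Hit
        have e : ∀ a : F, (x - (h + d) = a * d) ↔ (x - h = (1 + a) * d) := by
          intro a
          constructor
          · intro h; linear_combination h
          · intro h; linear_combination h
        rw [e, e, e, e]
      by_cases hx : x = h
      · subst hx
        refine ⟨x, (hmem x x x).mpr (Or.inl ⟨rfl, rfl⟩), ?_⟩
        intro g hg
        rcases (hmem g x x).mp hg with h1 | h1
        · exact h1.1
        · exfalso
          have h2 := (hconv (g - x)).mp (by rw [add_sub_cancel]; exact h1)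
          rw [sub_self] at h2
          rcases h2 with ⟨h2, h3 | h3⟩ | ⟨h2, h3 | h3⟩
          · exact (mul_ne_zero ha₀' (hv0E _ h2)) h3.symm
          · exact (mul_ne_zero hb₀' (hv0E _ h2)) h3.symm
          · exact (mul_ne_zero ha₁' (hv1E _ h2)) h3.symm
          · exact (mul_ne_zero hb₁' (hv1E _ h2)) h3.symm
      · obtain ⟨d, hd, hu⟩ := hcol (x - h) (sub_ne_zero.mpr hx)
        refine ⟨h + d, (hmem (h + d) h x).mpr (Or.inr ?_), ?_⟩
        · rw [add_sub_cancel_left]; exact (hconv d).mpr hd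
        · intro g hg
          rcases (hmem g h x).mp hg with h1 | h1
          · exact absurd (h1.2.trans h1.1) hx
          · have h2 := (hconv (g - h)).mp (by rw [add_sub_cancel]; exact h1)
            rw [← hu _ h2]; ring

end cyclotomic

end Pool.Agent.Helper73.RoomSq
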