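import Mathlib

set_option autoImplicit false

/-!
# Room squares: definitions
-/

namespace Pool.Agent.Helper73.RoomSq

/-- `M` is a Room square with rows and columns indexed by `ι` and symbols in `S`: every cell is
empty (`none`) or holds an unordered pair of distinct symbols, every unordered pair of distinct
symbols lies in exactly one cell, and every symbol lies exactly once in every row and column. -/
structure IsRoomSquare {ι S : Type*} (M : ι → ι → Option (Sym2 S)) : Prop where
  distinct : ∀ i j p, M i j = some p → ¬ p.IsDiag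
  pairs : ∀ x y : S, x ≠ y → ∃! c : ι × ι, M c.1 c.2 = some s(x, y)
  rows : ∀ (i : ι) (x : S), ∃! j, ∃ p, M i j = some p ∧ x ∈ p
  cols : ∀ (j : ι) (x : S), ∃! i, ∃ p, M i j = some p ∧ x ∈ p

/-- Arrays of side `r` whose cells are empty or hold an unordered pair of symbols from
`{0, 1, …, r}`. -/
abbrev RoomArray (r : ℕ) := Fin r → Fin r → Option (Sym2 (Fin (r + 1)))

/-- `M` is standardized: the `i`-th diagonal cell contains `{0, i}` (rows and columns are numbered
`1, …, r`, that is, the row `i : Fin r` has number `i.succ : Fin (r + 1)`). -/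
def Standardized {r : ℕ} (M : RoomArray r) : Prop :=
  ∀ i : Fin r, M i i = some s((0 : Fin (r + 1)), i.succ)

/-- The incidence matrix of an array. -/
def incidence {r : ℕ} (M : RoomArray r) : Matrix (Fin r) (Fin r) ℤ :=
  Matrix.of fun i j => if (M i j).isSome then 1 else 0

/-- The all-ones matrix. -/
def allOnes (r : ℕ) : Matrix (Fin r) (Fin r) ℤ := Matrix.of fun _ _ => 1

/-- `M₁` and `M₂` are complementary: `A₁ + A₂ = J + I`. -/
def Complementary {r : ℕ} (M₁ M₂ : RoomArray r) : Prop :=
  incidence M₁ + incidence M₂ = allOnes r + 1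

/-- `M` is skew: `A + Aᵀ = J + I`. -/
def Skew {r : ℕ} (M : RoomArray r) : Prop :=
  incidence M + (incidence M).transpose = allOnes r + 1

/-- Isomorphism: permute rows, permute columns, relabel symbols. -/
def Isomorphic {r : ℕ} (M M' : RoomArray r) : Prop :=
  ∃ (ρ κ : Equiv.Perm (Fin r)) (σ : Equiv.Perm (Fin (r + 1))),
    ∀ i j, M' (ρ i) (κ j) = (M i j).map (Sym2.map σ)

/-- `M` has a complement: it is isomorphic to a standardized Room square that has a complementary
standardized Room square. -/
def HasComplement {r : ℕ} (M : RoomArray r) : Prop :=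
  ∃ M₁ M₂ : RoomArray r, IsRoomSquare M₁ ∧ Standardized M₁ ∧ IsRoomSquare M₂ ∧ Standardized M₂ ∧
    Complementary M₁ M₂ ∧ Isomorphic M M₁

/-- `M` is isomorphic to a skew (standardized) Room square. -/
def IsoToSkew {r : ℕ} (M : RoomArray r) : Prop :=
  ∃ M' : RoomArray r, IsRoomSquare M' ∧ Standardized M' ∧ Skew M' ∧ Isomorphic M M'

end Pool.Agent.Helper73.RoomSq
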