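import Pool.Agent.Helper73.RoomDefs

set_option autoImplicit false

/-!
# Embedded Room squares: definitions
-/

namespace Pool.Agent.Helper73.RoomSq

/-- `L` is a Latin square of side `r`; the entry `L i j : Fin r` stands for the symbol
`(L i j).succ ∈ {1, …, r}`. -/
def IsLatin {r : ℕ} (L : Fin r → Fin r → Fin r) : Prop :=
  (∀ i x, ∃! j, L i j = x) ∧ (∀ j x, ∃! i, L i j = x)

/-- Orthogonality: every ordered pair occurs exactly once. -/
def Orthogonal {r : ℕ} (L N : Fin r → Fin r → Fin r) : Prop :=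
  ∀ x y, ∃! c : Fin r × Fin r, L c.1 c.2 = x ∧ N c.1 c.2 = y

/-- `M` is embedded: there are orthogonal Latin squares `L`, `N` with `l_ii = m_ii = i` and
`{l_ij, m_ij} = {x, y}` whenever an off-diagonal cell `(i, j)` of `M` holds `{x, y}`. -/
def Embedded {r : ℕ} (M : RoomArray r) : Prop :=
  ∃ L N : Fin r → Fin r → Fin r, IsLatin L ∧ IsLatin N ∧ Orthogonal L N ∧
    (∀ i, L i i = i ∧ N i i = i) ∧
    ∀ i j p, i ≠ j → M i j = some p → s((L i j).succ, (N i j).succ) = p

/-- `M` is isomorphic to an embedded (standardized) Room square. -/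
def IsoToEmbedded {r : ℕ} (M : RoomArray r) : Prop :=
  ∃ M' : RoomArray r, IsRoomSquare M' ∧ Standardized M' ∧ Embedded M' ∧ Isomorphic M M'

end Pool.Agent.Helper73.RoomSq
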