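import Pool.Agent.Helper73.RoomCyc

set_option autoImplicit false

namespace Pool.Agent.Helper73.RoomSq

section hit

variable {F : Type*} [Field F] {E : ℕ} {v₀ a₀ b₀ v₁ a₁ b₁ z₁ z₂ z₃ z₄ : F}

lemma hit_unique (ha₀ : a₀ ≠ 0) (hb₀ : b₀ ≠ 0) (ha₁ : a₁ ≠ 0) (hb₁ : b₁ ≠ 0)
    (hcov : ∀ t : F, t ≠ 0 → t ^ E = z₁ ∨ t ^ E = z₂ ∨ t ^ E = z₃ ∨ t ^ E = z₄)
    (h₁ : a₀ ^ E * v₀ = z₁) (h₂ : b₀ ^ E * v₀ = z₂) (h₃ : a₁ ^ E * v₁ = z₃)
    (h₄ : b₁ ^ E * v₁ = z₄)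
    (h12 : z₁ ≠ z₂) (h13 : z₁ ≠ z₃) (h14 : z₁ ≠ z₄) (h23 : z₂ ≠ z₃) (h24 : z₂ ≠ z₄)
    (h34 : z₃ ≠ z₄) (t : F) (ht : t ≠ 0) : ∃! d, Hit E v₀ a₀ b₀ v₁ a₁ b₁ t d := by
  have hval : ∀ d, Hit E v₀ a₀ b₀ v₁ a₁ b₁ t d →
      (t ^ E = z₁ ∧ d = t / a₀) ∨ (t ^ E = z₂ ∧ d = t / b₀) ∨ (t ^ E = z₃ ∧ d = t / a₁) ∨
        (t ^ E = z₄ ∧ d = t / b₁) := by
    rintro d (⟨he, h | h⟩ | ⟨he, h | h⟩)
    · left; refine ⟨?_, ?_⟩
      · rw [h, mul_pow, he, h₁]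
      · rw [h]; field_simp
    · right; left; refine ⟨?_, ?_⟩
      · rw [h, mul_pow, he, h₂]
      · rw [h]; field_simp
    · right; right; left; refine ⟨?_, ?_⟩
      · rw [h, mul_pow, he, h₃]
      · rw [h]; field_simp
    · right; right; right; refine ⟨?_, ?_⟩
      · rw [h, mul_pow, he, h₄]
      · rw [h]; field_simp
  have hdiv : ∀ (a v z : F), a ≠ 0 → a ^ E * v = z → t ^ E = z → (t / a) ^ E = v := by
    intro a v z ha hz htz
    rw [div_pow, htz, ← hz]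
    field_simp
  have hex : ∃ d, Hit E v₀ a₀ b₀ v₁ a₁ b₁ t d := by
    rcases hcov t ht with h | h | h | h
    · exact ⟨t / a₀, Or.inl ⟨hdiv _ _ _ ha₀ h₁ h, Or.inl (by field_simp)⟩⟩
    · exact ⟨t / b₀, Or.inl ⟨hdiv _ _ _ hb₀ h₂ h, Or.inr (by field_simp)⟩⟩
    · exact ⟨t / a₁, Or.inr ⟨hdiv _ _ _ ha₁ h₃ h, Or.inl (by field_simp)⟩⟩
    · exact ⟨t / b₁, Or.inr ⟨hdiv _ _ _ hb₁ h₄ h, Or.inr (by field_simp)⟩⟩
  obtain ⟨d, hd⟩ := hex
  refine ⟨d, hd, ?_⟩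
  intro d' hd'
  rcases hval d hd with ⟨h, e⟩ | ⟨h, e⟩ | ⟨h, e⟩ | ⟨h, e⟩ <;>
  rcases hval d' hd' with ⟨h', e'⟩ | ⟨h', e'⟩ | ⟨h', e'⟩ | ⟨h', e'⟩ <;>
  first
    | exact e'.trans e.symm
    | exact absurd (h.symm.trans h') h12
    | exact absurd (h.symm.trans h') h13
    | exact absurd (h.symm.trans h') h14
    | exact absurd (h.symm.trans h') h23
    | exact absurd (h.symm.trans h') h24
    | exact absurd (h.symm.trans h') h34
    | exact absurd (h'.symm.trans h) h12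
    | exact absurd (h'.symm.trans h) h13
    | exact absurd (h'.symm.trans h) h14
    | exact absurd (h'.symm.trans h) h23
    | exact absurd (h'.symm.trans h) h24
    | exact absurd (h'.symm.trans h) h34

end hit

section char13

/-- The exponent `(q - 1) / 4` for `q = 13 ^ (4 m + 1)`. -/
def expo (m : ℕ) : ℕ := (13 ^ (4 * m + 1) - 1) / 4

lemma pow_mod (m : ℕ) : 13 ^ (4 * m + 1) % 48 = 13 := by
  have h : (13 ^ 4) ^ m % 48 = 1 := by
    rw [Nat.pow_mod]; norm_num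
  rw [pow_succ, pow_mul, Nat.mul_mod, h]

lemma four_mul_expo (m : ℕ) : 4 * expo m = 13 ^ (4 * m + 1) - 1 := by
  have h := pow_mod m
  unfold expo
  generalize 13 ^ (4 * m + 1) = N at h ⊢
  omega

lemma expo_mod (m : ℕ) : expo m % 12 = 3 := by
  have h := pow_mod m
  unfold expo
  generalize 13 ^ (4 * m + 1) = N at h ⊢
  omega

variable {F : Type*} [Field F] [CharP F 13]

lemma cast13 : (13 : F) = 0 := by
  have := CharP.cast_eq_zero F 13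
  exact_mod_cast this

lemma nat_ne {n : ℕ} (hn : ¬ 13 ∣ n) : (n : F) ≠ 0 := by
  intro h
  exact hn ((CharP.cast_eq_zero_iff F 13 n).mp h)

lemma nat_pow_expo (m : ℕ) {n : ℕ} (hn : ¬ 13 ∣ n) : (n : F) ^ expo m = (n : F) ^ 3 := by
  have h12 : (n : F) ^ 12 = 1 := by
    have hp : Fact (Nat.Prime 13) := ⟨by norm_num⟩
    have h1 : ((n : ZMod 13)) ≠ 0 := by
      intro h
      exact hn ((ZMod.natCast_eq_zero_iff n 13).mp h)
    have h2 : ((n : ZMod 13)) ^ 12 = 1 := ZMod.pow_card_sub_one_eq_one h1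
    have h3 : ((n ^ 12 : ℕ) : ZMod 13) = ((1 : ℕ) : ZMod 13) := by
      push_cast; exact h2
    have h4 : n ^ 12 ≡ 1 [MOD 13] := (ZMod.natCast_eq_natCast_iff _ _ 13).mp h3
    have h5 : ((n ^ 12 : ℕ) : F) = ((1 : ℕ) : F) := (CharP.natCast_eq_natCast F 13).mpr h4
    exact_mod_cast h5
  have h := Nat.div_add_mod (expo m) 12
  rw [expo_mod] at h
  rw [← h, pow_add, pow_mul, h12, one_pow, one_mul]

lemma fourth_roots {z : F} (hz : z ^ 4 = 1) : z = 1 ∨ z = 5 ∨ z = 8 ∨ z = 12 := by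
  have h13 := cast13 (F := F)
  have h : (z - 1) * ((z - 5) * ((z - 8) * (z - 12))) = 0 := by
    linear_combination hz + (-2 * z ^ 3 + 17 * z ^ 2 - 52 * z + 37) * h13
  rcases mul_eq_zero.mp h with h | h
  · left; exact sub_eq_zero.mp h
  · rcases mul_eq_zero.mp h with h | h
    · right; left; exact sub_eq_zero.mp h
    · rcases mul_eq_zero.mp h with h | h
      · right; right; left; exact sub_eq_zero.mp h
      · right; right; right; exact sub_eq_zero.mp h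

end char13

end Pool.Agent.Helper73.RoomSq
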