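import Pool.Agent.Helper73.RoomFam

set_option autoImplicit false

namespace Pool.Agent.Helper73.RoomSq

lemma incidence_add_eq_iff {r : ℕ} (M₁ M₂ : RoomArray r) (h₁ : ∀ i, (M₁ i i).isSome)
    (h₂ : ∀ i, (M₂ i i).isSome)
    (h : ∀ i j, i ≠ j → ((M₁ i j).isSome ↔ ¬ (M₂ i j).isSome)) : Complementary M₁ M₂ := by
  unfold Complementary
  ext i j
  by_cases hij : i = j
  · subst hij
    simp [incidence, allOnes, h₁, h₂]
  · have := h i j hij
    by_cases h3 : (M₁ i j).isSome
    · have h4 : ¬ (M₂ i j).isSome := this.mp h3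
      simp [incidence, allOnes, h3, h4, hij]
    · have h4 : (M₂ i j).isSome := by
        by_contra h5; exact h3 (this.mpr h5)
      simp [incidence, allOnes, h3, h4, hij]

lemma Skew.iff {r : ℕ} {M : RoomArray r} (h : Skew M) {i j : Fin r} (hij : i ≠ j) :
    (M i j).isSome ↔ ¬ (M j i).isSome := by
  have := congrFun (congrFun h i) j
  simp only [incidence, allOnes, Matrix.add_apply, Matrix.transpose_apply, Matrix.of_apply,
    Matrix.one_apply, hij, if_false] at this
  by_cases h1 : (M i j).isSome <;> by_cases h2 : (M j i).isSome <;> simp [h1, h2] at this ⊢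

/-- If `M` is isomorphic to a standardized skew Room square via `(ρ, κ, σ)` and `σ s = 0`, then for
two cells containing `{s, u}` and `{s, v}`, `u ≠ v`, exactly one of the two cells at the remaining
corners of the rectangle is occupied. -/
lemma skew_exchange {r : ℕ} {M M' : RoomArray r} (hM' : IsRoomSquare M') (hst : Standardized M')
    (hsk : Skew M') (ρ κ : Equiv.Perm (Fin r)) (σ : Equiv.Perm (Fin (r + 1)))
    (hiso : ∀ i j, M' (ρ i) (κ j) = (M i j).map (Sym2.map σ)) {s u v : Fin (r + 1)} (huv : u ≠ v)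
    (hsu : s ≠ u) (hsv : s ≠ v) (hs : σ s = 0) {i₁ j₁ i₂ j₂ : Fin r}
    (h₁ : M i₁ j₁ = some s(s, u)) (h₂ : M i₂ j₂ = some s(s, v)) :
    (M i₁ j₂).isSome ↔ ¬ (M i₂ j₁).isSome := by
  have key : ∀ {w : Fin (r + 1)} {i j : Fin r}, s ≠ w → M i j = some s(s, w) →
      ∃ a : Fin r, σ w = a.succ ∧ ρ i = a ∧ κ j = a := by
    intro w i j hw hij
    have hw0 : σ w ≠ 0 := by
      intro h; apply hw; apply σ.injective; rw [hs, h]
    obtain ⟨a, ha⟩ := Fin.exists_succ_eq.mpr hw0
    have h3 : M' (ρ i) (κ j) = some s((0 : Fin (r + 1)), a.succ) := by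
      rw [hiso, hij, Option.map_some, Sym2.map_mk, hs, ← ha]
    have h4 := (hM'.pairs (0 : Fin (r + 1)) a.succ (Fin.succ_ne_zero a).symm).unique
      (y₁ := (ρ i, κ j)) (y₂ := (a, a)) h3 (hst a)
    exact ⟨a, ha.symm, congrArg Prod.fst h4, congrArg Prod.snd h4⟩
  obtain ⟨a, ha, ha1, ha2⟩ := key hsu h₁
  obtain ⟨b, hb, hb1, hb2⟩ := key hsv h₂
  have hab : a ≠ b := by
    rintro rfl
    exact huv (σ.injective (ha.trans hb.symm))
  have h5 := hsk.iff hab
  have h6 : (M' a b).isSome = (M i₁ j₂).isSome := by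
    rw [← ha1, ← hb2, hiso, Option.isSome_map]
  have h7 : (M' b a).isSome = (M i₂ j₁).isSome := by
    rw [← hb1, ← ha2, hiso, Option.isSome_map]
  rw [h6, h7] at h5
  exact h5

section family

variable {F : Type*} [Field F] [CharP F 13] [DecidableEq F]

/-- first array: classes `1` and `12` of the quartic character. -/
def N₁ (m : ℕ) : F → F → Option (Sym2 (Option F)) := cyc (expo m) 1 1 6 12 2 3

/-- second array: classes `8` and `5` of the quartic character. -/
def N₂ (m : ℕ) : F → F → Option (Sym2 (Option F)) := cyc (expo m) 8 7 1 5 9 8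

lemma expo_ne_zero (m : ℕ) : expo m ≠ 0 := by
  have := expo_mod m
  intro h; rw [h] at this; simp at this

omit [DecidableEq F] in
lemma num_ne (n : ℕ) [n.AtLeastTwo] (hn : ¬ 13 ∣ n) : (OfNat.ofNat n : F) ≠ 0 := by
  have := nat_ne (F := F) hn
  exact_mod_cast this

omit [DecidableEq F] in
lemma num_pow (m n : ℕ) [n.AtLeastTwo] (hn : ¬ 13 ∣ n) :
    (OfNat.ofNat n : F) ^ expo m = (OfNat.ofNat n : F) ^ 3 := by
  have := nat_pow_expo (F := F) m (n := OfNat.ofNat n) hn
  rwa [Nat.cast_ofNat] at this

lemma N₁_isRoomSquare (m : ℕ)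
    (hcov : ∀ t : F, t ≠ 0 → (t ^ expo m) ^ 4 = 1) : IsRoomSquare (N₁ (F := F) m) := by
  have h13 := cast13 (F := F)
  have n2 := num_ne (F := F) 2 (by norm_num)
  have n3 := num_ne (F := F) 3 (by norm_num)
  have n4 := num_ne (F := F) 4 (by norm_num)
  have n5 := num_ne (F := F) 5 (by norm_num)
  have n6 := num_ne (F := F) 6 (by norm_num)
  have n7 := num_ne (F := F) 7 (by norm_num)
  have n8 := num_ne (F := F) 8 (by norm_num)
  have n11 := num_ne (F := F) 11 (by norm_num)
  have n12 := num_ne (F := F) 12 (by norm_num)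
  have p2 := num_pow (F := F) m 2 (by norm_num)
  have p3 := num_pow (F := F) m 3 (by norm_num)
  have p4 := num_pow (F := F) m 4 (by norm_num)
  have p5 := num_pow (F := F) m 5 (by norm_num)
  have p6 := num_pow (F := F) m 6 (by norm_num)
  have p7 := num_pow (F := F) m 7 (by norm_num)
  have p8 := num_pow (F := F) m 8 (by norm_num)
  have p12 := num_pow (F := F) m 12 (by norm_num)
  have d15 : (1 : F) ≠ 5 := fun h => n4 (by linear_combination -h)
  have d18 : (1 : F) ≠ 8 := fun h => n7 (by linear_combination -h)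
  have d112 : (1 : F) ≠ 12 := fun h => n11 (by linear_combination -h)
  have d58 : (5 : F) ≠ 8 := fun h => n3 (by linear_combination -h)
  have d512 : (5 : F) ≠ 12 := fun h => n7 (by linear_combination -h)
  have d812 : (8 : F) ≠ 12 := fun h => n4 (by linear_combination -h)
  refine cyc_isRoomSquare n2 (expo_ne_zero m) one_ne_zero n12 d112 one_ne_zero n6 n2 n3
    ?_ ?_ ?_ ?_ ?_ ?_ ?_ ?_ ?_
  · have : (1 : F) + 1 = 2 := by norm_num
    rw [this]; exact n2
  · have : (1 : F) + 6 = 7 := by norm_num
    rw [this]; exact n7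
  · have : (1 : F) + 2 = 3 := by norm_num
    rw [this]; exact n3
  · have : (1 : F) + 3 = 4 := by norm_num
    rw [this]; exact n4
  · exact fun h => n5 (by linear_combination -h)
  · exact fun h => one_ne_zero (α := F) (by linear_combination -h)
  · -- rows
    refine hit_unique (z₁ := 1) (z₂ := 8) (z₃ := 5) (z₄ := 12) one_ne_zero n6 n2 n3 ?_ ?_ ?_ ?_ ?_
      d18 d15 d112 d58.symm d812 d512
    · intro t ht
      rcases fourth_roots (hcov t ht) with h | h | h | h <;> simp [h]
    · simp
    · rw [p6]; linear_combination 16 * h13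
    · rw [p2]; linear_combination 7 * h13
    · rw [p3]; linear_combination 24 * h13
  · -- columns
    have e1 : (1 : F) + 1 = 2 := by norm_num
    have e6 : (1 : F) + 6 = 7 := by norm_num
    have e2 : (1 : F) + 2 = 3 := by norm_num
    have e3 : (1 : F) + 3 = 4 := by norm_num
    rw [e1, e6, e2, e3]
    refine hit_unique (z₁ := 8) (z₂ := 5) (z₃ := 12) (z₄ := 1) n2 n7 n3 n4 ?_ ?_ ?_ ?_ ?_
      d58.symm d812 d18.symm d512 d15.symm d112.symm
    · intro t ht
      rcases fourth_roots (hcov t ht) with h | h | h | h <;> simp [h]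
    · rw [p2]; linear_combination 0 * h13
    · rw [p7]; linear_combination 26 * h13
    · rw [p3]; linear_combination 24 * h13
    · rw [p4]; linear_combination 59 * h13
  · -- pairs
    have e1 : (1 : F) - 6 = 8 := by linear_combination -h13
    have e2 : (6 : F) - 1 = 5 := by norm_num
    have e3 : (2 : F) - 3 = 12 := by linear_combination -h13
    have e4 : (3 : F) - 2 = 1 := by norm_num
    rw [e1, e2, e3, e4]
    refine hit_unique (z₁ := 5) (z₂ := 8) (z₃ := 1) (z₄ := 12) n8 n5 n12 one_ne_zero ?_ ?_ ?_ ?_ ?_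
      d58 d15.symm d512 d18.symm d812 d112
    · intro t ht
      rcases fourth_roots (hcov t ht) with h | h | h | h <;> simp [h]
    · rw [p8]; linear_combination 39 * h13
    · rw [p5]; linear_combination 9 * h13
    · rw [p12]; linear_combination 1595 * h13
    · simp

lemma N₂_isRoomSquare (m : ℕ)
    (hcov : ∀ t : F, t ≠ 0 → (t ^ expo m) ^ 4 = 1) : IsRoomSquare (N₂ (F := F) m) := by
  have h13 := cast13 (F := F)
  have n2 := num_ne (F := F) 2 (by norm_num)
  have n3 := num_ne (F := F) 3 (by norm_num)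
  have n4 := num_ne (F := F) 4 (by norm_num)
  have n5 := num_ne (F := F) 5 (by norm_num)
  have n6 := num_ne (F := F) 6 (by norm_num)
  have n7 := num_ne (F := F) 7 (by norm_num)
  have n8 := num_ne (F := F) 8 (by norm_num)
  have n9 := num_ne (F := F) 9 (by norm_num)
  have n10 := num_ne (F := F) 10 (by norm_num)
  have n11 := num_ne (F := F) 11 (by norm_num)
  have n12 := num_ne (F := F) 12 (by norm_num)
  have p2 := num_pow (F := F) m 2 (by norm_num)
  have p6 := num_pow (F := F) m 6 (by norm_num)
  have p7 := num_pow (F := F) m 7 (by norm_num)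
  have p8 := num_pow (F := F) m 8 (by norm_num)
  have p9 := num_pow (F := F) m 9 (by norm_num)
  have p10 := num_pow (F := F) m 10 (by norm_num)
  have p12 := num_pow (F := F) m 12 (by norm_num)
  have d15 : (1 : F) ≠ 5 := fun h => n4 (by linear_combination -h)
  have d18 : (1 : F) ≠ 8 := fun h => n7 (by linear_combination -h)
  have d112 : (1 : F) ≠ 12 := fun h => n11 (by linear_combination -h)
  have d58 : (5 : F) ≠ 8 := fun h => n3 (by linear_combination -h)
  have d512 : (5 : F) ≠ 12 := fun h => n7 (by linear_combination -h)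
  have d812 : (8 : F) ≠ 12 := fun h => n4 (by linear_combination -h)
  refine cyc_isRoomSquare n2 (expo_ne_zero m) n8 n5 d58.symm n7 one_ne_zero n9 n8
    ?_ ?_ ?_ ?_ ?_ ?_ ?_ ?_ ?_
  · have : (1 : F) + 7 = 8 := by norm_num
    rw [this]; exact n8
  · have : (1 : F) + 1 = 2 := by norm_num
    rw [this]; exact n2
  · have : (1 : F) + 9 = 10 := by norm_num
    rw [this]; exact n10
  · have : (1 : F) + 8 = 9 := by norm_num
    rw [this]; exact n9
  · exact fun h => n6 (by linear_combination h)
  · exact fun h => one_ne_zero (α := F) (by linear_combination h)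
  · -- rows
    refine hit_unique (z₁ := 1) (z₂ := 8) (z₃ := 5) (z₄ := 12) n7 one_ne_zero n9 n8 ?_ ?_ ?_ ?_ ?_
      d18 d15 d112 d58.symm d812 d512
    · intro t ht
      rcases fourth_roots (hcov t ht) with h | h | h | h <;> simp [h]
    · rw [p7]; linear_combination 211 * h13
    · simp
    · rw [p9]; linear_combination 280 * h13
    · rw [p8]; linear_combination 196 * h13
  · -- columns
    have e1 : (1 : F) + 7 = 8 := by norm_num
    have e6 : (1 : F) + 1 = 2 := by norm_num
    have e2 : (1 : F) + 9 = 10 := by norm_num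
    have e3 : (1 : F) + 8 = 9 := by norm_num
    rw [e1, e6, e2, e3]
    refine hit_unique (z₁ := 1) (z₂ := 12) (z₃ := 8) (z₄ := 5) n8 n2 n10 n9 ?_ ?_ ?_ ?_ ?_
      d112 d18 d15 d812.symm d512.symm d58.symm
    · intro t ht
      rcases fourth_roots (hcov t ht) with h | h | h | h <;> simp [h]
    · rw [p8]; linear_combination 315 * h13
    · rw [p2]; linear_combination 4 * h13
    · rw [p10]; linear_combination 384 * h13
    · rw [p9]; linear_combination 280 * h13
  · -- pairs
    have e1 : (7 : F) - 1 = 6 := by norm_num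
    have e2 : (1 : F) - 7 = 7 := by linear_combination -h13
    have e3 : (9 : F) - 8 = 1 := by norm_num
    have e4 : (8 : F) - 9 = 12 := by linear_combination -h13
    rw [e1, e2, e3, e4]
    refine hit_unique (z₁ := 12) (z₂ := 1) (z₃ := 5) (z₄ := 8) n6 n7 one_ne_zero n12 ?_ ?_ ?_ ?_ ?_
      d112.symm d512.symm d812.symm d15 d18 d58
    · intro t ht
      rcases fourth_roots (hcov t ht) with h | h | h | h <;> simp [h]
    · rw [p6]; linear_combination 132 * h13
    · rw [p7]; linear_combination 211 * h13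
    · simp
    · rw [p12]; linear_combination 664 * h13

end family

section final

open Polynomial

instance fact13 : Fact (Nat.Prime 13) := ⟨by norm_num⟩

/-- The field with `13 ^ (4 m + 1)` elements. -/
abbrev Fm (m : ℕ) := GaloisField 13 (4 * m + 1)

noncomputable instance (m : ℕ) : DecidableEq (Fm m) := Classical.decEq _

lemma card_Fm (m : ℕ) : Nat.card (Fm m) = 13 ^ (4 * m + 1) := GaloisField.card 13 _ (by omega)

lemma Fm_cov (m : ℕ) (t : Fm m) (ht : t ≠ 0) : (t ^ expo m) ^ 4 = 1 := by
  have h1 : Fintype (Fm m) := Fintype.ofFinite _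
  have h2 : expo m * 4 = Fintype.card (Fm m) - 1 := by
    have := four_mul_expo m
    rw [← Nat.card_eq_fintype_card, card_Fm m]
    omega
  rw [← pow_mul, h2]
  exact FiniteField.pow_card_sub_one_eq_one t ht

/-- The side of the `m`-th square. -/
def sideOf (m : ℕ) : ℕ := 13 ^ (4 * m + 1)

/-- Numbering of the rows and columns by the elements of the field. -/
noncomputable def eRow (m : ℕ) : Fin (sideOf m) ≃ Fm m :=
  (Finite.equivFinOfCardEq (card_Fm m)).symm

/-- Numbering of the symbols: `∞` gets number `0`. -/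
noncomputable def eSym (m : ℕ) : Option (Fm m) ≃ Fin (sideOf m + 1) :=
  (Equiv.optionCongr (eRow m).symm).trans (finSuccEquiv (sideOf m)).symm

lemma eSym_none (m : ℕ) : eSym m none = 0 := by
  show (finSuccEquiv (sideOf m)).symm (Option.map (eRow m).symm none) = 0
  simp

lemma eSym_some (m : ℕ) (g : Fm m) : eSym m (some g) = ((eRow m).symm g).succ := by
  show (finSuccEquiv (sideOf m)).symm (Option.map (eRow m).symm (some g)) = _
  simp

/-- The `m`-th square. -/
noncomputable def sq₁ (m : ℕ) : RoomArray (sideOf m) :=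
  transport (eRow m) (eSym m) (N₁ (F := Fm m) m)

/-- The complement of the `m`-th square. -/
noncomputable def sq₂ (m : ℕ) : RoomArray (sideOf m) :=
  transport (eRow m) (eSym m) (N₂ (F := Fm m) m)

lemma sq₁_isRoomSquare (m : ℕ) : IsRoomSquare (sq₁ m) :=
  (N₁_isRoomSquare m (Fm_cov m)).transport _ _

lemma sq₂_isRoomSquare (m : ℕ) : IsRoomSquare (sq₂ m) :=
  (N₂_isRoomSquare m (Fm_cov m)).transport _ _

lemma transport_cyc_diag (m : ℕ) (v₀ a₀ b₀ v₁ a₁ b₁ : Fm m) (i : Fin (sideOf m)) :
    transport (eRow m) (eSym m) (cyc (expo m) v₀ a₀ b₀ v₁ a₁ b₁) i i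
      = some s((0 : Fin (sideOf m + 1)), i.succ) := by
  unfold transport cyc
  rw [if_pos rfl, Option.map_some, Sym2.map_mk, eSym_none, eSym_some, Equiv.symm_apply_apply]

lemma sq₁_standardized (m : ℕ) : Standardized (sq₁ m) := fun i => transport_cyc_diag m _ _ _ _ _ _ i

lemma sq₂_standardized (m : ℕ) : Standardized (sq₂ m) := fun i => transport_cyc_diag m _ _ _ _ _ _ i

lemma cyc_isSome {F : Type*} [Field F] [DecidableEq F] {E : ℕ} {v₀ a₀ b₀ v₁ a₁ b₁ g h : F}
    (hgh : g ≠ h) : (cyc E v₀ a₀ b₀ v₁ a₁ b₁ g h).isSome ↔ (g - h) ^ E = v₀ ∨ (g - h) ^ E = v₁ := by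
  unfold cyc
  rw [if_neg hgh]
  split_ifs with h1 h2
  · simp [h1]
  · simp [h2]
  · simp [h1, h2]

lemma sq_complementary (m : ℕ) : Complementary (sq₁ m) (sq₂ m) := by
  apply incidence_add_eq_iff
  · intro i; rw [sq₁_standardized m i]; rfl
  · intro i; rw [sq₂_standardized m i]; rfl
  · intro i j hij
    have hne : eRow m i ≠ eRow m j := fun h => hij ((eRow m).injective h)
    unfold sq₁ sq₂ transport
    rw [Option.isSome_map, Option.isSome_map]
    unfold N₁ N₂
    rw [cyc_isSome hne, cyc_isSome hne]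
    have h13 := cast13 (F := Fm m)
    have n3 := num_ne (F := Fm m) 3 (by norm_num)
    have n4 := num_ne (F := Fm m) 4 (by norm_num)
    have n7 := num_ne (F := Fm m) 7 (by norm_num)
    have d15 : (1 : Fm m) ≠ 5 := fun h => n4 (by linear_combination -h)
    have d18 : (1 : Fm m) ≠ 8 := fun h => n7 (by linear_combination -h)
    have d125 : (12 : Fm m) ≠ 5 := fun h => n7 (by linear_combination h)
    have d128 : (12 : Fm m) ≠ 8 := fun h => n4 (by linear_combination h)
    rcases fourth_roots (Fm_cov m _ (sub_ne_zero.mpr hne)) with h | h | h | h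
    · simp [h, d18, d15]
    · simp [h, d125.symm, d15.symm]
    · simp [h, d18.symm, d128.symm]
    · simp [h, d128, d125]

lemma isomorphic_refl {r : ℕ} (M : RoomArray r) : Isomorphic M M := by
  refine ⟨1, 1, 1, fun i j => ?_⟩
  simp

lemma sq₁_hasComplement (m : ℕ) : HasComplement (sq₁ m) :=
  ⟨sq₁ m, sq₂ m, sq₁_isRoomSquare m, sq₁_standardized m, sq₂_isRoomSquare m, sq₂_standardized m,
    sq_complementary m, isomorphic_refl _⟩

lemma sq₁_isSome {m : ℕ} {g h : Fm m} (hgh : g ≠ h) :
    (sq₁ m ((eRow m).symm g) ((eRow m).symm h)).isSome ↔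
      (g - h) ^ expo m = 1 ∨ (g - h) ^ expo m = 12 := by
  unfold sq₁ transport
  rw [Option.isSome_map, Equiv.apply_symm_apply, Equiv.apply_symm_apply]
  unfold N₁
  exact cyc_isSome hgh

lemma sq₁_diag (m : ℕ) (g : Fm m) : sq₁ m ((eRow m).symm g) ((eRow m).symm g)
    = some s(eSym m none, eSym m (some g)) := by
  rw [sq₁_standardized, eSym_none, eSym_some]

lemma sq₁_one (m : ℕ) (g : Fm m) : sq₁ m ((eRow m).symm g) ((eRow m).symm (g - 1))
    = some s(eSym m (some (g + 1)), eSym m (some (g + 6))) := by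
  unfold sq₁ transport
  rw [Equiv.apply_symm_apply, Equiv.apply_symm_apply]
  unfold N₁ cyc
  have h1 : g ≠ g - 1 := fun h => one_ne_zero (α := Fm m) (by linear_combination h)
  have h2 : g - (g - 1) = 1 := by ring
  rw [if_neg h1, h2, one_pow, if_pos rfl, Option.map_some, Sym2.map_mk, mul_one, mul_one]

lemma sq₁_not_isoToSkew (m : ℕ) : ¬ IsoToSkew (sq₁ m) := by
  rintro ⟨M', hM', hst, hsk, ρ, κ, σ, hiso⟩
  have h13 := cast13 (F := Fm m)
  have n4 := num_ne (F := Fm m) 4 (by norm_num)
  have n5 := num_ne (F := Fm m) 5 (by norm_num)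
  have n6 := num_ne (F := Fm m) 6 (by norm_num)
  have n7 := num_ne (F := Fm m) 7 (by norm_num)
  -- the symbol that becomes `0`
  obtain ⟨s, hs⟩ : ∃ s, σ (eSym m s) = 0 := ⟨(eSym m).symm (σ.symm 0), by simp⟩
  rcases s with _ | a
  · -- `s = ∞`: the cells `(1, 0)` and `(0, 1)` are both occupied
    have h := skew_exchange hM' hst hsk ρ κ σ hiso (s := eSym m none)
      (u := eSym m (some 1)) (v := eSym m (some 0))
      (fun h => one_ne_zero (Option.some.inj ((eSym m).injective h)))
      (fun h => by have := (eSym m).injective h; simp at this)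
      (fun h => by have := (eSym m).injective h; simp at this) hs
      (sq₁_diag m 1) (sq₁_diag m 0)
    rw [sq₁_isSome one_ne_zero, sq₁_isSome one_ne_zero.symm] at h
    have h1 : (1 - 0 : Fm m) ^ expo m = 1 := by rw [sub_zero, one_pow]
    have h2 : (0 - 1 : Fm m) ^ expo m = 12 := by
      have : (0 - 1 : Fm m) = 12 := by linear_combination -h13
      rw [this, num_pow m 12 (by norm_num)]
      linear_combination 132 * h13
    exact (h.mp (Or.inl h1)) (Or.inr h2)
  · -- `s = a`: the cells `(a, a - 7)` and `(a - 6, a)` are both empty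
    have hcell : sq₁ m ((eRow m).symm (a - 6)) ((eRow m).symm (a - 7))
        = some s(eSym m (some a), eSym m (some (a - 5))) := by
      have h1 := sq₁_one m (a - 6)
      have h2 : a - 6 - 1 = a - 7 := by ring
      have h3 : a - 6 + 1 = a - 5 := by ring
      have h4 : a - 6 + 6 = a := by ring
      rw [h2, h3, h4] at h1
      rw [h1, Sym2.eq_swap]
    have hcell' : sq₁ m ((eRow m).symm a) ((eRow m).symm a)
        = some s(eSym m (some a), eSym m none) := by
      rw [sq₁_diag, Sym2.eq_swap]
    have h := skew_exchange hM' hst hsk ρ κ σ hiso (s := eSym m (some a))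
      (u := eSym m none) (v := eSym m (some (a - 5)))
      (fun h => by have := (eSym m).injective h; simp at this)
      (fun h => by have := (eSym m).injective h; simp at this)
      (fun h => by
        have := Option.some.inj ((eSym m).injective h)
        exact n5 (by linear_combination this)) hs hcell' hcell
    have hne1 : a ≠ a - 7 := fun h => n7 (by linear_combination h)
    have hne2 : a - 6 ≠ a := fun h => n6 (by linear_combination -h)
    rw [sq₁_isSome hne1, sq₁_isSome hne2] at h
    have e1 : a - (a - 7) = 7 := by ring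
    have e2 : a - 6 - a = 7 := by linear_combination -h13
    rw [e1, e2] at h
    have h7 : (7 : Fm m) ^ expo m = 5 := by
      rw [num_pow m 7 (by norm_num)]; linear_combination 26 * h13
    have d51 : (5 : Fm m) ≠ 1 := fun h => n4 (by linear_combination h)
    have d512 : (5 : Fm m) ≠ 12 := fun h => n7 (by linear_combination -h)
    rw [h7] at h
    simp [d51, d512] at h

end final

end Pool.Agent.Helper73.RoomSq
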