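import Pool.Agent.Helper73.RoomSide7Sound
import Pool.Agent.Helper73.RoomSkew

set_option autoImplicit false

namespace Pool.Agent.Helper73.RoomSq.Side7

/-- A valid filling of the whole array by the values of `l` and `m`. -/
structure GridOK (s : ℕ) (l m : ℕ → ℕ → ℕ) : Prop where
  row : ∀ i, i < 7 → RowOK s i (l i) (m i)
  col : ∀ i i' j, i < 7 → i' < 7 → j < 7 → i ≠ i' → l i j ≠ l i' j ∧ m i j ≠ m i' j
  pair : ∀ i i' j j', i < 7 → i' < 7 → j < 7 → j' < 7 → i ≠ i' →
    ¬ (l i j = l i' j' ∧ m i j = m i' j')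

variable {s : ℕ} {l m : ℕ → ℕ → ℕ}

lemma cells_disjoint (h : GridOK s l m) {i i' j j' : ℕ} (hi : i < 7) (hi' : i' < 7) (hj : j < 7)
    (hj' : j' < 7) (hne : i ≠ i') (t : ℕ) :
    ¬ (Nat.testBit (code j (l i j) (m i j)) t = true ∧
      Nat.testBit (code j' (l i' j') (m i' j')) t = true) := by
  rw [testBit_code, testBit_code]
  have h1 := (h.row i hi).lt j hj
  have h2 := (h.row i' hi').lt j' hj'
  have h3 := h.pair i i' j j' hi hi' hj hj' hne
  have h4 : j = j' → l i j ≠ l i' j' ∧ m i j ≠ m i' j' := by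
    rintro rfl; exact h.col i i' j hi hi' hj hne
  generalize l i j = a at *
  generalize l i' j' = a' at *
  generalize m i j = b at *
  generalize m i' j' = b' at *
  by_cases hjj : j = j'
  · have h5 := h4 hjj
    omega
  · omega

lemma order_spec : ∀ i, i < 7 → (order i).Nodup ∧ ∀ j ∈ order i, j < 7 := by decide

/-- mask of the row `i` -/
def rowMask (l m : ℕ → ℕ → ℕ) (i : ℕ) : ℕ := maskOf (l i) (m i) (order i) 0

lemma testBit_rowMask {i t : ℕ} (h : Nat.testBit (rowMask l m i) t = true) :
    ∃ j ∈ order i, Nat.testBit (code j (l i j) (m i j)) t = true := by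
  rw [rowMask, testBit_maskOf] at h
  simpa using h

lemma rowMask_disjoint (h : GridOK s l m) {i i' : ℕ} (hi : i < 7) (hi' : i' < 7) (hne : i ≠ i') :
    Nat.land (rowMask l m i) (rowMask l m i') = 0 := by
  apply land_eq_zero_of
  rintro t ⟨h1, h2⟩
  obtain ⟨j, hj, hb⟩ := testBit_rowMask h1
  obtain ⟨j', hj', hb'⟩ := testBit_rowMask h2
  exact cells_disjoint h hi hi' ((order_spec i hi).2 j hj) ((order_spec i' hi').2 j' hj') hne t
    ⟨hb, hb'⟩

lemma testBit_diagCode (h : GridOK s l m) (hs : s < 8) {k t : ℕ} (hk : k < 7)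
    (ht : Nat.testBit (diagCode s k) t = true) :
    ∃ j, j < 7 ∧ Nat.testBit (code j (l k j) (m k j)) t = true := by
  unfold diagCode at ht
  have gen : ∀ (js : List ℕ) (acc : ℕ), (∀ j ∈ js, j < 7) →
      Nat.testBit (js.foldl (fun acc j =>
        let p := cellAt k j
        if p.1 == s then Nat.lor acc (code j p.2 p.2)
        else if p.2 == s then Nat.lor acc (code j p.1 p.1) else acc) acc) t = true →
      Nat.testBit acc t = true ∨ ∃ j, j < 7 ∧ Nat.testBit (code j (l k j) (m k j)) t = true := by
    intro js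
    induction js with
    | nil => intro acc _ h; exact Or.inl h
    | cons j js ih =>
      intro acc hjs ht
      rw [List.foldl_cons] at ht
      have hj7 : j < 7 := hjs j (by simp)
      rcases ih _ (fun j' hj' => hjs j' (by simp [hj'])) ht with h1 | h1
      · simp only at h1
        by_cases e1 : (cellAt k j).1 = s
        · have h9 : (cellAt k j).1 ≠ 9 := by omega
          have := ((h.row k hk).cell j hj7 h9).1 e1
          rw [if_pos (by simpa using e1), testBit_lor'] at h1
          rcases h1 with h1 | h1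
          · exact Or.inl h1
          · exact Or.inr ⟨j, hj7, by rw [this.1, this.2]; exact h1⟩
        · rw [if_neg (by simpa using e1)] at h1
          by_cases e2 : (cellAt k j).2 = s
          · have h9 : (cellAt k j).1 ≠ 9 := by
              have key : ∀ k, k < 7 → ∀ j, j < 7 → (cellAt k j).1 = 9 → (cellAt k j).2 = 9 := by
                decide
              intro h9
              have := key k hk j hj7 h9
              omega
            have := ((h.row k hk).cell j hj7 h9).2.1 e2
            rw [if_pos (by simpa using e2), testBit_lor'] at h1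
            rcases h1 with h1 | h1
            · exact Or.inl h1
            · exact Or.inr ⟨j, hj7, by rw [this.1, this.2]; exact h1⟩
          · rw [if_neg (by simpa using e2)] at h1
            exact Or.inl h1
      · exact Or.inr h1
  rcases gen (List.range 7) 0 (fun j hj => List.mem_range.mp hj) ht with h1 | h1
  · simp at h1
  · exact h1

lemma testBit_otherDiag (h : GridOK s l m) (hs : s < 8) {i t : ℕ}
    (ht : Nat.testBit (otherDiag s i) t = true) :
    ∃ k j, k < 7 ∧ j < 7 ∧ k ≠ i ∧ Nat.testBit (code j (l k j) (m k j)) t = true := by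
  unfold otherDiag at ht
  have gen : ∀ (ks : List ℕ) (acc : ℕ), (∀ k ∈ ks, k < 7) →
      Nat.testBit (ks.foldl (fun acc k => if k == i then acc else Nat.lor acc (diagCode s k)) acc)
        t = true →
      Nat.testBit acc t = true ∨
        ∃ k j, k < 7 ∧ j < 7 ∧ k ≠ i ∧ Nat.testBit (code j (l k j) (m k j)) t = true := by
    intro ks
    induction ks with
    | nil => intro acc _ h; exact Or.inl h
    | cons k ks ih =>
      intro acc hks ht
      rw [List.foldl_cons] at ht
      have hk7 : k < 7 := hks k (by simp)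
      rcases ih _ (fun k' hk' => hks k' (by simp [hk'])) ht with h1 | h1
      · by_cases e : k = i
        · rw [if_pos (by simpa using e)] at h1
          exact Or.inl h1
        · rw [if_neg (by simpa using e), testBit_lor'] at h1
          rcases h1 with h1 | h1
          · exact Or.inl h1
          · obtain ⟨j, hj, hb⟩ := testBit_diagCode h hs hk7 h1
            exact Or.inr ⟨k, j, hk7, hj, e, hb⟩
      · exact Or.inr h1
  rcases gen (List.range 7) 0 (fun j hj => List.mem_range.mp hj) ht with h1 | h1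
  · simp at h1
  · exact h1

lemma rowMask_mem (h : GridOK s l m) (hs : s < 8) {i : ℕ} (hi : i < 7) :
    rowMask l m i ∈ (enumRow s i (order i) 0 0 []).filter
      fun x => Nat.beq (Nat.land x (otherDiag s i)) 0 := by
  rw [List.mem_filter]
  refine ⟨?_, ?_⟩
  · exact mem_enumRow (h.row i hi) (order i) 0 0 [] (order_spec i hi).1 (order_spec i hi).2
      (fun j _ => by simp)
  · have : Nat.land (rowMask l m i) (otherDiag s i) = 0 := by
      apply land_eq_zero_of
      rintro t ⟨h1, h2⟩
      obtain ⟨j, hj, hb⟩ := testBit_rowMask h1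
      obtain ⟨k, j', hk, hj', hki, hb'⟩ := testBit_otherDiag h hs h2
      exact cells_disjoint h hi hk ((order_spec i hi).2 j hj) hj' hki.symm t ⟨hb, hb'⟩
    rw [this]; rfl

theorem no_grid (hs : s < 8) (hfc : fc 7 (rowsOf s) = false) : ¬ GridOK s l m := by
  intro h
  have h1 : fc 7 (rowsOf s) = true := by
    apply fc_sound 7 (rowsOf s) ((List.range 7).map (rowMask l m))
    · unfold rowsOf
      rw [List.forall₂_map_left_iff, List.forall₂_map_right_iff, List.forall₂_same]
      intro i hi
      exact rowMask_mem h hs (List.mem_range.mp hi)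
    · rw [List.pairwise_map]
      refine List.Pairwise.imp_of_mem ?_ (List.nodup_range (n := 7))
      intro a b ha hb hab
      exact rowMask_disjoint h (List.mem_range.mp ha) (List.mem_range.mp hb) hab
  rw [hfc] at h1
  exact absurd h1 (by simp)

/-- The Room square of side 7. -/
def M7 : RoomArray 7 := fun i j =>
  if (cellAt i j).1 = 9 then none
  else some s(Fin.ofNat 8 (cellAt i j).1, Fin.ofNat 8 (cellAt i j).2)

lemma M7_isRoomSquare : IsRoomSquare M7 where
  distinct := by decide +kernel
  pairs := by unfold ExistsUnique; decide +kernel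
  rows := by unfold ExistsUnique; decide +kernel
  cols := by unfold ExistsUnique; decide +kernel

lemma M7_standardized : Standardized M7 := by
  unfold Standardized
  decide +kernel

/-- the transposed square -/
def M7T : RoomArray 7 := fun i j => M7 j i

lemma M7T_isRoomSquare : IsRoomSquare M7T where
  distinct := fun i j p h => M7_isRoomSquare.distinct j i p h
  pairs := by
    intro x y hxy
    obtain ⟨c, hc, hu⟩ := M7_isRoomSquare.pairs x y hxy
    refine ⟨(c.2, c.1), hc, ?_⟩
    intro c' hc'
    have := hu (c'.2, c'.1) hc'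
    rw [← this]
  rows := fun i x => M7_isRoomSquare.cols i x
  cols := fun i x => M7_isRoomSquare.rows i x

lemma M7T_standardized : Standardized M7T := fun i => M7_standardized i

lemma M7_skew : Skew M7 := by
  have h : Complementary M7 M7T := by
    apply incidence_add_eq_iff
    · decide +kernel
    · decide +kernel
    · decide +kernel
  have h2 : incidence M7T = (incidence M7).transpose := rfl
  unfold Complementary at h
  rw [h2] at h
  exact h

lemma M7_hasComplement : HasComplement M7 := by
  refine ⟨M7, M7T, M7_isRoomSquare, M7_standardized, M7T_isRoomSquare, M7T_standardized, ?_,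
    isomorphic_refl _⟩
  apply incidence_add_eq_iff
  · decide +kernel
  · decide +kernel
  · decide +kernel

lemma cell_range : ∀ i, i < 7 → ∀ j, j < 7 → (cellAt i j).1 ≠ 9 →
    (cellAt i j).1 < 8 ∧ (cellAt i j).2 < 8 ∧ (cellAt i j).1 ≠ (cellAt i j).2 := by decide

lemma grid_of_iso (M' : RoomArray 7) (hM' : IsRoomSquare M') (hst : Standardized M')
    (L N : Fin 7 → Fin 7 → Fin 7) (hL : IsLatin L) (hN : IsLatin N) (hO : Orthogonal L N)
    (hd : ∀ i, L i i = i ∧ N i i = i)
    (hc : ∀ i j p, i ≠ j → M' i j = some p → s((L i j).succ, (N i j).succ) = p)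
    (ρ κ : Equiv.Perm (Fin 7)) (σ : Equiv.Perm (Fin (7 + 1)))
    (hiso : ∀ i j, M' (ρ i) (κ j) = (M7 i j).map (Sym2.map σ)) :
    GridOK (σ.symm 0).val
      (fun i j => (σ.symm (L (ρ (Fin.ofNat 7 i)) (κ (Fin.ofNat 7 j))).succ).val)
      (fun i j => (σ.symm (N (ρ (Fin.ofNat 7 i)) (κ (Fin.ofNat 7 j))).succ).val) := by
  have hofNat : ∀ {i j : ℕ}, i < 7 → j < 7 → i ≠ j → Fin.ofNat 7 i ≠ Fin.ofNat 7 j := by
    intro i j hi hj hij h
    apply hij
    have := congrArg Fin.val h
    rw [Fin.val_ofNat, Fin.val_ofNat, Nat.mod_eq_of_lt hi, Nat.mod_eq_of_lt hj] at this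
    exact this
  have hval : ∀ {a b : Fin 7}, (σ.symm a.succ).val = (σ.symm b.succ).val → a = b := by
    intro a b h
    exact Fin.succ_injective _ (σ.symm.injective (Fin.ext h))
  have hLr : ∀ {i j j'}, L i j = L i j' → j = j' := fun {i j j'} h =>
    (hL.1 i (L i j')).unique h rfl
  have hNr : ∀ {i j j'}, N i j = N i j' → j = j' := fun {i j j'} h =>
    (hN.1 i (N i j')).unique h rfl
  have hLc : ∀ {i i' j}, L i j = L i' j → i = i' := fun {i i' j} h =>
    (hL.2 j (L i' j)).unique h rfl
  have hNc : ∀ {i i' j}, N i j = N i' j → i = i' := fun {i i' j} h =>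
    (hN.2 j (N i' j)).unique h rfl
  refine ⟨fun i hi => ⟨?_, ?_, ?_⟩, ?_, ?_⟩
  · -- lt
    intro j hj
    refine ⟨(σ.symm _).isLt, (σ.symm _).isLt, ?_, ?_⟩
    · intro h
      have := σ.symm.injective (Fin.ext h)
      exact Fin.succ_ne_zero _ this
    · intro h
      have := σ.symm.injective (Fin.ext h)
      exact Fin.succ_ne_zero _ this
  · -- cell
    intro j hj h9
    obtain ⟨hx8, hy8, hxy⟩ := cell_range i hi j hj h9
    set x := (cellAt i j).1 with hx
    set y := (cellAt i j).2 with hy
    have hM : M7 (Fin.ofNat 7 i) (Fin.ofNat 7 j) = some s(Fin.ofNat 8 x, Fin.ofNat 8 y) := by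
      unfold M7
      have e1 : ((Fin.ofNat 7 i : Fin 7) : ℕ) = i := by
        rw [Fin.val_ofNat, Nat.mod_eq_of_lt hi]
      have e2 : ((Fin.ofNat 7 j : Fin 7) : ℕ) = j := by
        rw [Fin.val_ofNat, Nat.mod_eq_of_lt hj]
      rw [e1, e2, if_neg h9]
    have hxv : ((Fin.ofNat 8 x : Fin 8) : ℕ) = x := by rw [Fin.val_ofNat, Nat.mod_eq_of_lt hx8]
    have hyv : ((Fin.ofNat 8 y : Fin 8) : ℕ) = y := by rw [Fin.val_ofNat, Nat.mod_eq_of_lt hy8]
    have hne : (Fin.ofNat 8 x : Fin 8) ≠ Fin.ofNat 8 y := fun h => hxy (by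
      rw [← hxv, ← hyv, h])
    generalize Fin.ofNat 7 i = I at hM ⊢
    generalize Fin.ofNat 7 j = J at hM ⊢
    have hMc : M' (ρ I) (κ J) = some s(σ (Fin.ofNat 8 x), σ (Fin.ofNat 8 y)) := by
      rw [hiso, hM]; rfl
    -- the case where one of the two symbols is the special one
    have special : ∀ u v : Fin 8, u ≠ v → σ u = 0 → M' (ρ I) (κ J) = some s(σ u, σ v) →
        (σ.symm (L (ρ I) (κ J)).succ).val = v.val ∧ (σ.symm (N (ρ I) (κ J)).succ).val = v.val := by
      intro u v huv hu hcell
      have hv0 : σ v ≠ 0 := fun h => huv (σ.injective (hu.trans h.symm))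
      obtain ⟨a, ha⟩ := Fin.exists_succ_eq.mpr hv0
      rw [hu, ← ha] at hcell
      have h4 := (hM'.pairs (0 : Fin (7 + 1)) a.succ (Fin.succ_ne_zero a).symm).unique
        (y₁ := (ρ I, κ J)) (y₂ := (a, a)) hcell (hst a)
      have h5 : ρ I = a := congrArg Prod.fst h4
      have h6 : κ J = a := congrArg Prod.snd h4
      rw [h5, h6, (hd a).1, (hd a).2, ha]
      simp
    refine ⟨?_, ?_, ?_⟩
    · intro hxs
      have hux : σ (Fin.ofNat 8 x) = 0 := by
        have : (Fin.ofNat 8 x : Fin 8) = σ.symm 0 := Fin.ext (by rw [hxv]; exact hxs)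
        rw [this]; simp
      have := special _ _ hne hux hMc
      rw [hyv] at this
      exact this
    · intro hys
      have huy : σ (Fin.ofNat 8 y) = 0 := by
        have : (Fin.ofNat 8 y : Fin 8) = σ.symm 0 := Fin.ext (by rw [hyv]; exact hys)
        rw [this]; simp
      have := special _ _ hne.symm huy (by rw [hMc, Sym2.eq_swap])
      rw [hxv] at this
      exact this
    · intro hxs hys
      have hux : σ (Fin.ofNat 8 x) ≠ 0 := by
        intro h
        apply hxs
        rw [← h, Equiv.symm_apply_apply, hxv]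
      have huy : σ (Fin.ofNat 8 y) ≠ 0 := by
        intro h
        apply hys
        rw [← h, Equiv.symm_apply_apply, hyv]
      have hIJ : ρ I ≠ κ J := by
        intro h
        rw [h, hst] at hMc
        have h7 := Option.some.inj hMc
        rw [Sym2.eq_iff] at h7
        rcases h7 with ⟨h8, _⟩ | ⟨h8, _⟩
        · exact hux h8.symm
        · exact huy h8.symm
      have h7 := hc _ _ _ hIJ hMc
      rw [Sym2.eq_iff] at h7
      rcases h7 with ⟨h8, h9⟩ | ⟨h8, h9⟩
      · left
        rw [h8, h9]
        simp only [Equiv.symm_apply_apply]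
        exact ⟨hxv, hyv⟩
      · right
        rw [h8, h9]
        simp only [Equiv.symm_apply_apply]
        exact ⟨hyv, hxv⟩
  · -- inj
    intro j j' hj hj' hne
    refine ⟨fun h => ?_, fun h => ?_⟩
    · exact hofNat hj hj' hne (κ.injective (hLr (hval h)))
    · exact hofNat hj hj' hne (κ.injective (hNr (hval h)))
  · -- columns
    intro i i' j hi hi' hj hne
    refine ⟨fun h => ?_, fun h => ?_⟩
    · exact hofNat hi hi' hne (ρ.injective (hLc (hval h)))
    · exact hofNat hi hi' hne (ρ.injective (hNc (hval h)))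
  · -- pairs
    intro i i' j j' hi hi' hj hj' hne
    rintro ⟨h1, h2⟩
    have h3 := (hO (L (ρ (Fin.ofNat 7 i')) (κ (Fin.ofNat 7 j')))
      (N (ρ (Fin.ofNat 7 i')) (κ (Fin.ofNat 7 j')))).unique
      (y₁ := (ρ (Fin.ofNat 7 i), κ (Fin.ofNat 7 j)))
      (y₂ := (ρ (Fin.ofNat 7 i'), κ (Fin.ofNat 7 j'))) ⟨hval h1, hval h2⟩ ⟨rfl, rfl⟩
    exact hofNat hi hi' hne (ρ.injective (congrArg Prod.fst h3))

lemma fc0 : fc 7 (rowsOf 0) = false := by decide +kernel
lemma fc1 : fc 7 (rowsOf 1) = false := by decide +kernel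
lemma fc2 : fc 7 (rowsOf 2) = false := by decide +kernel
lemma fc3 : fc 7 (rowsOf 3) = false := by decide +kernel
lemma fc4 : fc 7 (rowsOf 4) = false := by decide +kernel
lemma fc5 : fc 7 (rowsOf 5) = false := by decide +kernel
lemma fc6 : fc 7 (rowsOf 6) = false := by decide +kernel
lemma fc7 : fc 7 (rowsOf 7) = false := by decide +kernel

lemma fc_all (s : ℕ) (hs : s < 8) : fc 7 (rowsOf s) = false := by
  interval_cases s
  · exact fc0
  · exact fc1
  · exact fc2
  · exact fc3
  · exact fc4
  · exact fc5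
  · exact fc6
  · exact fc7

theorem M7_not_isoToEmbedded : ¬ IsoToEmbedded M7 := by
  rintro ⟨M', hM', hst, ⟨L, N, hL, hN, hO, hd, hc⟩, ρ, κ, σ, hiso⟩
  exact no_grid (σ.symm 0).isLt (fc_all _ (σ.symm 0).isLt)
    (grid_of_iso M' hM' hst L N hL hN hO hd hc ρ κ σ hiso)

end Pool.Agent.Helper73.RoomSq.Side7
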