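import Pool.Agent.Helper73.RoomEmbDefs

set_option autoImplicit false

namespace Pool.Agent.Helper73.RoomSq.Side7

/-- The cells of the square of side 7; `(9, 9)` stands for an empty cell. -/
def tbl : List (List (ℕ × ℕ)) :=
[[(0, 1), (9, 9), (9, 9), (2, 6), (3, 4), (5, 7), (9, 9)],
 [(4, 5), (0, 2), (9, 9), (9, 9), (6, 7), (9, 9), (1, 3)],
 [(2, 7), (4, 6), (0, 3), (1, 5), (9, 9), (9, 9), (9, 9)],
 [(9, 9), (1, 7), (9, 9), (0, 4), (9, 9), (2, 3), (5, 6)],
 [(9, 9), (9, 9), (1, 6), (3, 7), (0, 5), (9, 9), (2, 4)],
 [(9, 9), (3, 5), (4, 7), (9, 9), (1, 2), (0, 6), (9, 9)],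
 [(3, 6), (9, 9), (2, 5), (9, 9), (9, 9), (1, 4), (0, 7)]]

def cellAt (i j : ℕ) : ℕ × ℕ := (tbl.getD i []).getD j (9, 9)

def symList : List ℕ := [0, 1, 2, 3, 4, 5, 6, 7]

/-- code of a value `(a, b)` in the cell `(i, j)`, across rows -/
def code (j a b : ℕ) : ℕ := 2 ^ (8 * j + a) ||| (2 ^ (56 + 8 * j + b) ||| 2 ^ (112 + 8 * a + b))

/-- `foldSym f tail` prepends the lists produced by `f 0, …, f 7` to `tail`. -/
def foldSym (f : ℕ → List ℕ → List ℕ) (tail : List ℕ) : List ℕ :=
  List.rec (motive := fun _ => List ℕ) tail (fun a _ ih => f a ih) symList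

/-- try the value `(a, b)`: if `a` is unused by `l` and `b` unused by `m` continue with `k`. -/
def tryVal (j used acc a b : ℕ) (k : ℕ → ℕ → List ℕ → List ℕ) (tail : List ℕ) : List ℕ :=
  cond (Nat.beq (Nat.land used (Nat.lor (2 ^ a) (2 ^ (8 + b)))) 0)
    (k (Nat.lor used (Nat.lor (2 ^ a) (2 ^ (8 + b)))) (Nat.lor acc (code j a b)) tail) tail

/-- Enumerate the possible rows.  `used` are the symbols used by `l` (bits `0-7`) and by `m`
(bits `8-15`). The result collects the masks. -/
def enumRow (s i : ℕ) (js : List ℕ) : ℕ → ℕ → List ℕ → List ℕ :=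
  List.rec (motive := fun _ => ℕ → ℕ → List ℕ → List ℕ) (fun _ acc tail => acc :: tail)
    (fun j _ ih used acc tail =>
      cond (Nat.beq (cellAt i j).1 9)
        (foldSym (fun a tail => cond (Nat.beq a s || Nat.testBit used a) tail
          (foldSym (fun b tail => cond (Nat.beq b s) tail (tryVal j used acc a b ih tail)) tail)) tail)
        (cond (Nat.beq (cellAt i j).1 s) (tryVal j used acc (cellAt i j).2 (cellAt i j).2 ih tail)
          (cond (Nat.beq (cellAt i j).2 s) (tryVal j used acc (cellAt i j).1 (cellAt i j).1 ih tail)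
            (tryVal j used acc (cellAt i j).1 (cellAt i j).2 ih
              (tryVal j used acc (cellAt i j).2 (cellAt i j).1 ih tail))))) js

/-- occupied cells first -/
def order (i : ℕ) : List ℕ :=
  (List.range 7).filter (fun j => !((cellAt i j).1 == 9)) ++
    (List.range 7).filter (fun j => (cellAt i j).1 == 9)

def diagCode (s i : ℕ) : ℕ :=
  (List.range 7).foldl (fun acc j =>
    let p := cellAt i j
    if p.1 == s then Nat.lor acc (code j p.2 p.2)
    else if p.2 == s then Nat.lor acc (code j p.1 p.1) else acc) 0

def otherDiag (s i : ℕ) : ℕ :=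
  (List.range 7).foldl (fun acc k => if k == i then acc else Nat.lor acc (diagCode s k)) 0

def rowsOf (s : ℕ) : List (List ℕ) := (List.range 7).map fun i =>
  (enumRow s i (order i) 0 0 []).filter fun m => Nat.beq (Nat.land m (otherDiag s i)) 0

def anyRec (f : ℕ → Bool) (l : List ℕ) : Bool :=
  List.rec (motive := fun _ => Bool) false (fun m _ ih => cond (f m) true ih) l

def filt (m : ℕ) (l : List ℕ) : List ℕ :=
  List.rec (motive := fun _ => List ℕ) []
    (fun x _ ih => cond (Nat.beq (Nat.land m x) 0) (x :: ih) ih) l

def mapFilt (m : ℕ) (L : List (List ℕ)) : List (List ℕ) :=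
  List.rec (motive := fun _ => List (List ℕ)) [] (fun O _ ih => filt m O :: ih) L

/-- fuel-driven forward checking -/
def fc : ℕ → List (List ℕ) → Bool
  | 0, _ => true
  | n + 1, L => List.rec (motive := fun _ => Bool) true
      (fun O rest _ => anyRec (fun m => fc n (mapFilt m rest)) O) L


/-! ### Soundness of the search -/

lemma anyRec_true {f : ℕ → Bool} {l : List ℕ} {m : ℕ} (hm : m ∈ l) (hf : f m = true) :
    anyRec f l = true := by
  induction l with
  | nil => simp at hm
  | cons a l ih =>
    have hunf : anyRec f (a :: l) = cond (f a) true (anyRec f l) := rfl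
    rw [hunf]
    rcases List.mem_cons.mp hm with rfl | h
    · simp [hf]
    · rw [ih h]; cases f a <;> rfl

lemma mem_filt {m x : ℕ} {l : List ℕ} (hx : x ∈ l) (h : Nat.land m x = 0) : x ∈ filt m l := by
  induction l with
  | nil => simp at hx
  | cons a l ih =>
    have hunf : filt m (a :: l) = cond (Nat.beq (Nat.land m a) 0) (a :: filt m l) (filt m l) := rfl
    rw [hunf]
    rcases List.mem_cons.mp hx with rfl | hx
    · rw [h]; exact List.mem_cons_self
    · cases Nat.beq (Nat.land m a) 0
      · exact ih hx
      · exact List.mem_cons_of_mem _ (ih hx)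

lemma forall₂_mapFilt {m : ℕ} {c : List ℕ} {L : List (List ℕ)}
    (h : List.Forall₂ (fun x O => x ∈ O) c L) (hm : ∀ x ∈ c, Nat.land m x = 0) :
    List.Forall₂ (fun x O => x ∈ O) c (mapFilt m L) := by
  induction h with
  | nil => exact List.Forall₂.nil
  | cons h1 _ ih =>
    refine List.Forall₂.cons (mem_filt h1 (hm _ (by simp))) (ih fun x hx => hm x (by simp [hx]))

lemma fc_sound (n : ℕ) : ∀ (L : List (List ℕ)) (c : List ℕ),
    List.Forall₂ (fun x O => x ∈ O) c L → c.Pairwise (fun a b => Nat.land a b = 0) →
    fc n L = true := by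
  induction n with
  | zero => intro L c _ _; rfl
  | succ n ih =>
    intro L c h hp
    cases h with
    | nil => rfl
    | cons h1 h2 =>
      rename_i a O c' L'
      have hunf : fc (n + 1) (O :: L') = anyRec (fun m => fc n (mapFilt m L')) O := rfl
      rw [hunf]
      rw [List.pairwise_cons] at hp
      exact anyRec_true h1 (ih _ _ (forall₂_mapFilt h2 hp.1) hp.2)

lemma mem_foldSym_tail {f : ℕ → List ℕ → List ℕ} {x : ℕ} (hf : ∀ a tail, x ∈ tail → x ∈ f a tail)
    {tail : List ℕ} (hx : x ∈ tail) : x ∈ foldSym f tail := by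
  unfold foldSym
  generalize symList = S
  induction S with
  | nil => exact hx
  | cons a S ih => exact hf a _ ih

lemma mem_foldSym {f : ℕ → List ℕ → List ℕ} {x a : ℕ} (hf : ∀ a tail, x ∈ tail → x ∈ f a tail)
    (ha : a < 8) (hx : ∀ tail, x ∈ f a tail) (tail : List ℕ) : x ∈ foldSym f tail := by
  have ha' : a ∈ symList := by
    unfold symList
    interval_cases a <;> simp
  unfold foldSym
  generalize symList = S at ha'
  induction S with
  | nil => simp at ha'
  | cons b S ih =>
    rcases List.mem_cons.mp ha' with rfl | h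
    · exact hx _
    · exact hf b _ (ih h)

lemma mem_tryVal_tail {j used acc a b x : ℕ} {k : ℕ → ℕ → List ℕ → List ℕ}
    (hk : ∀ u c tail, x ∈ tail → x ∈ k u c tail) {tail : List ℕ} (hx : x ∈ tail) :
    x ∈ tryVal j used acc a b k tail := by
  unfold tryVal
  cases Nat.beq (Nat.land used (Nat.lor (2 ^ a) (2 ^ (8 + b)))) 0
  · exact hx
  · exact hk _ _ _ hx

lemma mem_enumRow_tail (s i : ℕ) (js : List ℕ) {x : ℕ} : ∀ (used acc : ℕ) (tail : List ℕ),
    x ∈ tail → x ∈ enumRow s i js used acc tail := by
  induction js with
  | nil => intro used acc tail hx; exact List.mem_cons_of_mem _ hx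
  | cons j js ih =>
    intro used acc tail hx
    have hunf : enumRow s i (j :: js) used acc tail =
      cond (Nat.beq (cellAt i j).1 9)
        (foldSym (fun a tail => cond (Nat.beq a s || Nat.testBit used a) tail
          (foldSym (fun b tail => cond (Nat.beq b s) tail
            (tryVal j used acc a b (enumRow s i js) tail)) tail)) tail)
        (cond (Nat.beq (cellAt i j).1 s)
          (tryVal j used acc (cellAt i j).2 (cellAt i j).2 (enumRow s i js) tail)
          (cond (Nat.beq (cellAt i j).2 s)
            (tryVal j used acc (cellAt i j).1 (cellAt i j).1 (enumRow s i js) tail)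
            (tryVal j used acc (cellAt i j).1 (cellAt i j).2 (enumRow s i js)
              (tryVal j used acc (cellAt i j).2 (cellAt i j).1 (enumRow s i js) tail)))) := rfl
    rw [hunf]
    cases Nat.beq (cellAt i j).1 9
    · cases Nat.beq (cellAt i j).1 s
      · cases Nat.beq (cellAt i j).2 s
        · exact mem_tryVal_tail ih (mem_tryVal_tail ih hx)
        · exact mem_tryVal_tail ih hx
      · exact mem_tryVal_tail ih hx
    · rw [cond_true]
      refine mem_foldSym_tail ?_ hx
      intro a tail hx
      cases (Nat.beq a s || Nat.testBit used a)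
      · rw [cond_false]
        refine mem_foldSym_tail ?_ hx
        intro b tail hx
        cases Nat.beq b s
        · exact mem_tryVal_tail ih hx
        · exact hx
      · exact hx

lemma land_eq_zero_of {x y : ℕ} (h : ∀ t, ¬ (Nat.testBit x t = true ∧ Nat.testBit y t = true)) :
    Nat.land x y = 0 := by
  apply Nat.eq_of_testBit_eq
  intro t
  show Nat.testBit (x &&& y) t = Nat.testBit 0 t
  rw [Nat.testBit_and, Nat.zero_testBit]
  by_contra hc
  rw [Bool.not_eq_false, Bool.and_eq_true] at hc
  exact h t hc

lemma testBit_lor' (x y t : ℕ) : Nat.testBit (Nat.lor x y) t = true ↔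
    Nat.testBit x t = true ∨ Nat.testBit y t = true := by
  show Nat.testBit (x ||| y) t = true ↔ _
  rw [Nat.testBit_or, Bool.or_eq_true]

lemma testBit_pow' (a t : ℕ) : Nat.testBit (2 ^ a) t = true ↔ t = a := by
  rw [Nat.testBit_two_pow, decide_eq_true_iff]
  exact eq_comm

lemma testBit_code (j a b t : ℕ) : Nat.testBit (code j a b) t = true ↔
    t = 8 * j + a ∨ t = 56 + 8 * j + b ∨ t = 112 + 8 * a + b := by
  unfold code
  rw [Nat.testBit_or, Bool.or_eq_true, Nat.testBit_or, Bool.or_eq_true, testBit_pow',
    testBit_pow', testBit_pow']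

/-- A valid filling of the row `i`. -/
structure RowOK (s i : ℕ) (l m : ℕ → ℕ) : Prop where
  lt : ∀ j, j < 7 → l j < 8 ∧ m j < 8 ∧ l j ≠ s ∧ m j ≠ s
  cell : ∀ j, j < 7 → (cellAt i j).1 ≠ 9 →
    ((cellAt i j).1 = s → l j = (cellAt i j).2 ∧ m j = (cellAt i j).2) ∧
    ((cellAt i j).2 = s → l j = (cellAt i j).1 ∧ m j = (cellAt i j).1) ∧
    ((cellAt i j).1 ≠ s → (cellAt i j).2 ≠ s →
      (l j = (cellAt i j).1 ∧ m j = (cellAt i j).2) ∨ (l j = (cellAt i j).2 ∧ m j = (cellAt i j).1))
  inj : ∀ j j', j < 7 → j' < 7 → j ≠ j' → l j ≠ l j' ∧ m j ≠ m j'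

/-- mask of the filling `l`, `m` of the cells in `js`, added to `acc` -/
def maskOf (l m : ℕ → ℕ) : List ℕ → ℕ → ℕ
  | [], acc => acc
  | j :: js, acc => maskOf l m js (Nat.lor acc (code j (l j) (m j)))

lemma testBit_maskOf (l m : ℕ → ℕ) (js : List ℕ) : ∀ (acc t : ℕ),
    Nat.testBit (maskOf l m js acc) t = true ↔ Nat.testBit acc t = true ∨
      ∃ j ∈ js, Nat.testBit (code j (l j) (m j)) t = true := by
  induction js with
  | nil => intro acc t; simp [maskOf]
  | cons j js ih =>
    intro acc t
    have hunf : maskOf l m (j :: js) acc = maskOf l m js (Nat.lor acc (code j (l j) (m j))) := rfl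
    rw [hunf, ih, testBit_lor']
    constructor
    · rintro ((h | h) | ⟨j', hj', h⟩)
      · exact Or.inl h
      · exact Or.inr ⟨j, by simp, h⟩
      · exact Or.inr ⟨j', by simp [hj'], h⟩
    · rintro (h | ⟨j', hj', h⟩)
      · exact Or.inl (Or.inl h)
      · rcases List.mem_cons.mp hj' with rfl | hj'
        · exact Or.inl (Or.inr h)
        · exact Or.inr ⟨j', hj', h⟩

lemma mem_enumRow {s i : ℕ} {l m : ℕ → ℕ} (hok : RowOK s i l m) (js : List ℕ) :
    ∀ (used acc : ℕ) (tail : List ℕ), js.Nodup → (∀ j ∈ js, j < 7) →
      (∀ j ∈ js, Nat.testBit used (l j) = false ∧ Nat.testBit used (8 + m j) = false) →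
      maskOf l m js acc ∈ enumRow s i js used acc tail := by
  induction js with
  | nil => intro used acc tail _ _ _; exact List.mem_cons_self
  | cons j js ih =>
    intro used acc tail hnd hlt hused
    have hj7 : j < 7 := hlt j (by simp)
    obtain ⟨hl8, hm8, hls, hms⟩ := hok.lt j hj7
    have hub := hused j (by simp)
    rw [List.nodup_cons] at hnd
    have hmask : maskOf l m (j :: js) acc = maskOf l m js (Nat.lor acc (code j (l j) (m j))) := rfl
    -- the key step
    have hkey : ∀ tail, maskOf l m (j :: js) acc ∈
        tryVal j used acc (l j) (m j) (enumRow s i js) tail := by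
      intro tail
      unfold tryVal
      have h0 : Nat.land used (Nat.lor (2 ^ l j) (2 ^ (8 + m j))) = 0 := by
        apply land_eq_zero_of
        rintro t ⟨h1, h2⟩
        rw [testBit_lor', testBit_pow', testBit_pow'] at h2
        rcases h2 with rfl | rfl
        · rw [hub.1] at h1; exact absurd h1 (by simp)
        · rw [hub.2] at h1; exact absurd h1 (by simp)
      rw [h0]
      show maskOf l m (j :: js) acc ∈ enumRow s i js _ _ tail
      rw [hmask]
      apply ih _ _ _ hnd.2 (fun j' hj' => hlt j' (by simp [hj']))
      intro j' hj'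
      have hne : j' ≠ j := fun h => hnd.1 (h ▸ hj')
      have hj'7 := hlt j' (by simp [hj'])
      obtain ⟨hl8', hm8', _, _⟩ := hok.lt j' hj'7
      have hinj := hok.inj j' j hj'7 hj7 hne
      have hu' := hused j' (by simp [hj'])
      constructor
      · rw [← Bool.not_eq_true, testBit_lor', testBit_lor', testBit_pow', testBit_pow', hu'.1]
        rintro (h | h | h)
        · simp at h
        · exact hinj.1 h
        · omega
      · rw [← Bool.not_eq_true, testBit_lor', testBit_lor', testBit_pow', testBit_pow', hu'.2]
        rintro (h | h | h)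
        · simp at h
        · omega
        · exact hinj.2 (by omega)
    have hunf : enumRow s i (j :: js) used acc tail =
      cond (Nat.beq (cellAt i j).1 9)
        (foldSym (fun a tail => cond (Nat.beq a s || Nat.testBit used a) tail
          (foldSym (fun b tail => cond (Nat.beq b s) tail
            (tryVal j used acc a b (enumRow s i js) tail)) tail)) tail)
        (cond (Nat.beq (cellAt i j).1 s)
          (tryVal j used acc (cellAt i j).2 (cellAt i j).2 (enumRow s i js) tail)
          (cond (Nat.beq (cellAt i j).2 s)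
            (tryVal j used acc (cellAt i j).1 (cellAt i j).1 (enumRow s i js) tail)
            (tryVal j used acc (cellAt i j).1 (cellAt i j).2 (enumRow s i js)
              (tryVal j used acc (cellAt i j).2 (cellAt i j).1 (enumRow s i js) tail)))) := rfl
    rw [hunf]
    have hbeq : ∀ a b : ℕ, Nat.beq a b = decide (a = b) := fun a b => by
      by_cases h : a = b
      · subst h; simp
      · have : Nat.beq a b = false := by
          rw [← Bool.not_eq_true]
          intro h'
          exact h (Nat.eq_of_beq_eq_true h')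
        rw [this]; simp [h]
    by_cases h9 : (cellAt i j).1 = 9
    · rw [hbeq, decide_eq_true h9, cond_true]
      refine mem_foldSym ?_ hl8 ?_ tail
      rotate_left
      · intro tail
        have : (Nat.beq (l j) s || Nat.testBit used (l j)) = false := by
          rw [hbeq, hub.1]; simp [hls]
        show _ ∈ cond (Nat.beq (l j) s || Nat.testBit used (l j)) tail _
        rw [this, cond_false]
        refine mem_foldSym ?_ hm8 ?_ tail
        rotate_left
        · intro tail
          have : Nat.beq (m j) s = false := by rw [hbeq]; simp [hms]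
          show _ ∈ cond (Nat.beq (m j) s) tail _
          rw [this]
          exact hkey tail
        · intro b tail hx
          show _ ∈ cond (Nat.beq b s) tail _
          cases Nat.beq b s
          · exact mem_tryVal_tail (mem_enumRow_tail s i js) hx
          · exact hx
      · intro a tail hx
        show _ ∈ cond (Nat.beq a s || Nat.testBit used a) tail _
        cases (Nat.beq a s || Nat.testBit used a)
        · rw [cond_false]
          refine mem_foldSym_tail ?_ hx
          intro b tail hx
          show _ ∈ cond (Nat.beq b s) tail _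
          cases Nat.beq b s
          · exact mem_tryVal_tail (mem_enumRow_tail s i js) hx
          · exact hx
        · exact hx
    · obtain ⟨c1, c2, c3⟩ := hok.cell j hj7 h9
      rw [hbeq, decide_eq_false h9]
      show _ ∈ cond (Nat.beq (cellAt i j).1 s) _ _
      by_cases h1 : (cellAt i j).1 = s
      · rw [hbeq, decide_eq_true h1]
        show _ ∈ tryVal _ _ _ _ _ _ tail
        have := hkey tail
        rw [(c1 h1).1, (c1 h1).2] at this
        exact this
      · rw [hbeq, decide_eq_false h1]
        show _ ∈ cond (Nat.beq (cellAt i j).2 s) _ _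
        by_cases h2 : (cellAt i j).2 = s
        · rw [hbeq, decide_eq_true h2]
          show _ ∈ tryVal _ _ _ _ _ _ tail
          have := hkey tail
          rw [(c2 h2).1, (c2 h2).2] at this
          exact this
        · rw [hbeq, decide_eq_false h2]
          show _ ∈ tryVal _ _ _ _ _ _ (tryVal _ _ _ _ _ _ tail)
          rcases c3 h1 h2 with ⟨e1, e2⟩ | ⟨e1, e2⟩
          · have := hkey (tryVal j used acc (cellAt i j).2 (cellAt i j).1 (enumRow s i js) tail)
            rw [e1, e2] at this
            exact this
          · apply mem_tryVal_tail (mem_enumRow_tail s i js)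
            have := hkey tail
            rw [e1, e2] at this
            exact this

end Pool.Agent.Helper73.RoomSq.Side7
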