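import Mathlib

set_option autoImplicit false

/-!
# Valuated Delta-matroids from matrices over valued fields with involution: definitions
-/

namespace Pool.Agent.Helper73.ValuatedDelta

open Matrix

/-- `ν` is a nonarchimedean valuation on the field `K` with values in `ℝ ∪ {∞}`. -/
structure IsNonarchValuation {K : Type*} [Field K] (ν : K → WithTop ℝ) : Prop where
  eq_top_iff : ∀ a, ν a = ⊤ ↔ a = 0
  map_mul : ∀ a b, ν (a * b) = ν a + ν b
  min_le_map_add : ∀ a b, min (ν a) (ν b) ≤ ν (a + b)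

/-- The matrix `M^*`: apply the involution `σ` to all entries and transpose. -/
def starMat {K : Type*} [Field K] {n : ℕ} (σ : K ≃+* K) (M : Matrix (Fin n) (Fin n) K) :
    Matrix (Fin n) (Fin n) K := (M.map σ)ᵀ

/-- The principal minor `A_S` (equal to `1` for `S = ∅`). -/
def principalMinor {K : Type*} [Field K] {n : ℕ} (A : Matrix (Fin n) (Fin n) K)
    (S : Finset (Fin n)) : K :=
  (A.submatrix (fun i : S => (i : Fin n)) (fun i : S => (i : Fin n))).det

/-- The vertex `e_S` of the cube. -/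
def cubeVertex {n : ℕ} (S : Finset (Fin n)) : Fin n → ℝ := fun i => if i ∈ S then 1 else 0

/-- The lifted points `(e_S, p S)` with `p S ≠ ∞`. -/
def liftedPoints {n : ℕ} (p : Finset (Fin n) → WithTop ℝ) : Set ((Fin n → ℝ) × ℝ) :=
  {z | ∃ S : Finset (Fin n), z.1 = cubeVertex S ∧ p S = ((z.2 : ℝ) : WithTop ℝ)}

/-- Lower faces of the convex hull of the lifted points: the sets of minimisers of a linear
functional whose coefficient at the last coordinate is positive (normalised to `1`). -/
def IsLowerFace {n : ℕ} (p : Finset (Fin n) → WithTop ℝ) (F : Set ((Fin n → ℝ) × ℝ)) : Prop :=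
  ∃ w : Fin n → ℝ, F = {z | z ∈ convexHull ℝ (liftedPoints p) ∧
    ∀ y ∈ convexHull ℝ (liftedPoints p), w ⬝ᵥ z.1 + z.2 ≤ w ⬝ᵥ y.1 + y.2}

/-- `c` is a cell of the subdivision induced by `p`: the projection of a lower face. -/
def IsCell {n : ℕ} (p : Finset (Fin n) → WithTop ℝ) (c : Set (Fin n → ℝ)) : Prop :=
  ∃ F, IsLowerFace p F ∧ c = Prod.fst '' F

/-- The directions `e_i` and `e_i ± e_j`, `i ≠ j`. -/
def IsDeltaDirection {n : ℕ} (d : Fin n → ℝ) : Prop :=
  (∃ i, d = Pi.single i 1) ∨
    ∃ i j, i ≠ j ∧ (d = Pi.single i 1 + Pi.single j 1 ∨ d = Pi.single i 1 - Pi.single j 1)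

/-- `p` is a valuated Delta-matroid: every edge `[a, b]` (one-dimensional cell) of the induced
subdivision is parallel to some `e_i` or `e_i ± e_j`. -/
def IsValuatedDeltaMatroid {n : ℕ} (p : Finset (Fin n) → WithTop ℝ) : Prop :=
  ∀ a b : Fin n → ℝ, a ≠ b → IsCell p (segment ℝ a b) →
    ∃ (r : ℝ) (d : Fin n → ℝ), IsDeltaDirection d ∧ b - a = r • d

end Pool.Agent.Helper73.ValuatedDelta
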