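import Pool.Agent.Helper73.ValuatedDeltaDefs

set_option autoImplicit false

/-!
# Principal minors of skew-Hermitian plus rank-one Hermitian matrices

Idea of the proof.  The class of matrices `A` with `rank (A + A^*) ≤ 1` is closed under principal
pivoting: `A + A^*` is the Gram matrix of the form `x^* y + y^* x` on the graph `y = A x`, and
pivoting only swaps some coordinates `x_i`, `y_i`.  Since `(A * S)_X = A_{S Δ X} / A_S`, an edge
between `S` and `T` of the subdivision of `A` becomes an edge between `∅` and `U = S Δ T` for the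
pivoted matrix.  If `|U| ≥ 3` then (after tilting) all principal minors of size `1` and `2` inside
`U` have positive valuation; the rank condition bounds the entries of `H = A + A^*`, hence
`a_ij` and `a_ji = h_ji - σ(a_ij)` would have equal valuation if `a_ij` were not small, which
contradicts the smallness of `a_ij a_ji`.  So all entries are small, and so is the minor `A_U`,
a contradiction.
-/


namespace Pool.Agent.Helper73.ValuatedDelta

open Matrix

section algebra

variable {K : Type*} [Field K] {n : ℕ}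

lemma det_inst {m : Type*} (d₁ d₂ : DecidableEq m) (f₁ f₂ : Fintype m) (M : Matrix m m K) :
    @Matrix.det m d₁ f₁ K _ M = @Matrix.det m d₂ f₂ K _ M := by
  obtain rfl : d₁ = d₂ := Subsingleton.elim _ _
  obtain rfl : f₁ = f₂ := Subsingleton.elim _ _
  rfl

/-- replacing the rows outside `X` by unit rows gives the principal minor. -/
lemma det_mixed (M : Matrix (Fin n) (Fin n) K) (X : Finset (Fin n)) :
    (Matrix.of fun i j => if i ∈ X then M i j else (1 : Matrix (Fin n) (Fin n) K) i j).det
      = principalMinor M X := by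
  rw [Matrix.twoBlockTriangular_det _ (fun i => i ∈ X)]
  · have h2 : (toSquareBlockProp (Matrix.of fun i j => if i ∈ X then M i j
        else (1 : Matrix (Fin n) (Fin n) K) i j) fun i => ¬ i ∈ X).det = 1 := by
      have : (toSquareBlockProp (Matrix.of fun i j => if i ∈ X then M i j
        else (1 : Matrix (Fin n) (Fin n) K) i j) fun i => ¬ i ∈ X) = 1 := by
        ext i j
        have hi := i.2
        simp only [toSquareBlockProp_def, Matrix.of_apply, Matrix.one_apply]
        simp [hi, Subtype.ext_iff]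
      rw [this, Matrix.det_one]
    rw [h2, mul_one]
    have h3 : (toSquareBlockProp (Matrix.of fun i j => if i ∈ X then M i j
        else (1 : Matrix (Fin n) (Fin n) K) i j) fun i => i ∈ X)
        = M.submatrix (fun i : X => (i : Fin n)) (fun i : X => (i : Fin n)) := by
      ext i j
      have hi : (i : Fin n) ∈ X := i.2
      simp only [toSquareBlockProp_def, Matrix.of_apply, Matrix.submatrix_apply, if_pos hi]
    rw [h3, principalMinor]
    exact det_inst _ _ _ _ _
  · intro i hi j hj
    have : i ≠ j := fun h => hi (h ▸ hj)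
    simp [hi, Matrix.one_apply, this]

/-- Rows in `S` from `A`, other rows from the identity. -/
def rowsT (A : Matrix (Fin n) (Fin n) K) (S : Finset (Fin n)) : Matrix (Fin n) (Fin n) K :=
  Matrix.of fun i j => if i ∈ S then A i j else (1 : Matrix (Fin n) (Fin n) K) i j

/-- Rows outside `S` from `A`, rows in `S` from the identity. -/
def rowsN (A : Matrix (Fin n) (Fin n) K) (S : Finset (Fin n)) : Matrix (Fin n) (Fin n) K :=
  Matrix.of fun i j => if i ∈ S then (1 : Matrix (Fin n) (Fin n) K) i j else A i j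

/-- Principal pivot transform. -/
noncomputable def pivot (A : Matrix (Fin n) (Fin n) K) (S : Finset (Fin n)) : Matrix (Fin n) (Fin n) K :=
  rowsN A S * (rowsT A S)⁻¹

lemma det_rowsT (A : Matrix (Fin n) (Fin n) K) (S : Finset (Fin n)) :
    (rowsT A S).det = principalMinor A S := det_mixed A S

lemma principalMinor_pivot (A : Matrix (Fin n) (Fin n) K) (S X : Finset (Fin n))
    (hS : principalMinor A S ≠ 0) :
    principalMinor (pivot A S) X * principalMinor A S = principalMinor A (symmDiff S X) := by
  have hdet : IsUnit (rowsT A S).det := by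
    rw [det_rowsT]; exact isUnit_iff_ne_zero.mpr hS
  rw [← det_mixed (pivot A S) X, ← det_rowsT A S, ← Matrix.det_mul, ← det_mixed A]
  congr 1
  ext i j
  rw [Matrix.mul_apply]
  by_cases hX : i ∈ X
  · have h1 : ∑ k, (Matrix.of fun i j => if i ∈ X then pivot A S i j
        else (1 : Matrix (Fin n) (Fin n) K) i j) i k * rowsT A S k j
        = (pivot A S * rowsT A S) i j := by
      rw [Matrix.mul_apply]
      simp [hX]
    rw [h1, pivot, Matrix.mul_assoc, Matrix.nonsing_inv_mul _ hdet, Matrix.mul_one]
    by_cases hSi : i ∈ S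
    · have : i ∉ symmDiff S X := by simp [Finset.mem_symmDiff, hX, hSi]
      simp [rowsN, hSi, this]
    · have : i ∈ symmDiff S X := by simp [Finset.mem_symmDiff, hX, hSi]
      simp [rowsN, hSi, this]
  · have h1 : ∑ k, (Matrix.of fun i j => if i ∈ X then pivot A S i j
        else (1 : Matrix (Fin n) (Fin n) K) i j) i k * rowsT A S k j
        = ((1 : Matrix (Fin n) (Fin n) K) * rowsT A S) i j := by
      rw [Matrix.mul_apply]
      simp [hX]
    rw [h1, Matrix.one_mul]
    by_cases hSi : i ∈ S
    · have : i ∈ symmDiff S X := by simp [Finset.mem_symmDiff, hX, hSi]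
      simp [rowsT, hSi, this]
    · have : i ∉ symmDiff S X := by simp [Finset.mem_symmDiff, hX, hSi]
      simp [rowsT, hSi, this]

lemma starMat_mul (σ : K ≃+* K) (M N : Matrix (Fin n) (Fin n) K) :
    starMat σ (M * N) = starMat σ N * starMat σ M := by
  unfold starMat
  rw [← Matrix.transpose_mul]
  congr 1
  exact Matrix.map_mul

lemma starMat_add (σ : K ≃+* K) (M N : Matrix (Fin n) (Fin n) K) :
    starMat σ (M + N) = starMat σ M + starMat σ N := by
  ext i j; simp [starMat]

lemma starMat_one (σ : K ≃+* K) :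
    starMat σ (1 : Matrix (Fin n) (Fin n) K) = 1 := by
  ext i j
  by_cases h : i = j
  · subst h; simp [starMat]
  · simp [starMat, h, Ne.symm h]

lemma pivot_form (σ : K ≃+* K) (A : Matrix (Fin n) (Fin n) K) (S : Finset (Fin n)) :
    starMat σ (rowsT A S) * rowsN A S + starMat σ (rowsN A S) * rowsT A S
      = A + starMat σ A := by
  ext j k
  rw [Matrix.add_apply, Matrix.mul_apply, Matrix.mul_apply, ← Finset.sum_add_distrib]
  have h : ∀ i, starMat σ (rowsT A S) j i * rowsN A S i k
      + starMat σ (rowsN A S) j i * rowsT A S i k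
      = (1 : Matrix (Fin n) (Fin n) K) j i * A i k
        + starMat σ A j i * (1 : Matrix (Fin n) (Fin n) K) i k := by
    intro i
    have h1 : σ ((1 : Matrix (Fin n) (Fin n) K) i j) = (1 : Matrix (Fin n) (Fin n) K) j i := by
      by_cases h : i = j
      · subst h; simp
      · simp [h, Ne.symm h]
    by_cases hi : i ∈ S
    · simp only [starMat, rowsT, rowsN, Matrix.transpose_apply, Matrix.map_apply, Matrix.of_apply,
        hi, if_true, h1]
      ring
    · simp only [starMat, rowsT, rowsN, Matrix.transpose_apply, Matrix.map_apply, Matrix.of_apply,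
        hi, if_false, h1]
  rw [Finset.sum_congr rfl (fun i _ => h i), Finset.sum_add_distrib, ← Matrix.mul_apply,
    ← Matrix.mul_apply, Matrix.one_mul, Matrix.mul_one, Matrix.add_apply]

lemma rank_pivot (σ : K ≃+* K) (A : Matrix (Fin n) (Fin n) K) (S : Finset (Fin n))
    (hS : principalMinor A S ≠ 0) :
    (pivot A S + starMat σ (pivot A S)).rank ≤ (A + starMat σ A).rank := by
  have hdet : IsUnit (rowsT A S).det := by
    rw [det_rowsT]; exact isUnit_iff_ne_zero.mpr hS
  have key : pivot A S + starMat σ (pivot A S)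
      = starMat σ ((rowsT A S)⁻¹) * ((A + starMat σ A) * (rowsT A S)⁻¹) := by
    rw [← pivot_form σ A S, Matrix.add_mul, Matrix.mul_add]
    congr 1
    · rw [pivot, Matrix.mul_assoc, ← Matrix.mul_assoc (starMat σ (rowsT A S)⁻¹), ← starMat_mul,
        Matrix.mul_nonsing_inv _ hdet, starMat_one, Matrix.one_mul]
    · rw [Matrix.mul_assoc, Matrix.mul_nonsing_inv _ hdet, Matrix.mul_one, ← starMat_mul, pivot]
  rw [key]
  exact (Matrix.rank_mul_le_right _ _).trans (Matrix.rank_mul_le_left _ _)

lemma minor_two_eq_zero (H : Matrix (Fin n) (Fin n) K) (hH : H.rank ≤ 1) (i j : Fin n) :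
    H i j * H j i = H i i * H j j := by
  by_contra hne
  have h1 : (H.submatrix ![i, j] ![i, j]).rank ≤ 1 := (Matrix.rank_submatrix_le H _ _).trans hH
  have h2 : (H.submatrix ![i, j] ![i, j]).det ≠ 0 := by
    rw [Matrix.det_fin_two]
    simp only [Matrix.submatrix_apply, Matrix.cons_val_zero, Matrix.cons_val_one]
    intro h
    exact hne (sub_eq_zero.mp h).symm
  have h3 := Matrix.rank_of_det_ne_zero h2
  rw [h3] at h1
  simp at h1

lemma principalMinor_singleton (A : Matrix (Fin n) (Fin n) K) (i : Fin n) :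
    principalMinor A {i} = A i i := by
  unfold principalMinor
  have : Unique ({i} : Finset (Fin n)) :=
    { default := ⟨i, Finset.mem_singleton_self i⟩
      uniq := fun a => Subtype.ext (Finset.mem_singleton.mp a.2) }
  rw [Matrix.det_unique]
  have h : ((default : ({i} : Finset (Fin n))) : Fin n) = i :=
    Finset.mem_singleton.mp (default : ({i} : Finset (Fin n))).2
  simp [h]

lemma principalMinor_pair (A : Matrix (Fin n) (Fin n) K) {i j : Fin n} (hij : i ≠ j) :
    principalMinor A {i, j} = A i i * A j j - A i j * A j i := by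
  unfold principalMinor
  let f : Fin 2 → ({i, j} : Finset (Fin n)) :=
    ![⟨i, by simp⟩, ⟨j, by simp⟩]
  have hf : Function.Bijective f := by
    rw [Fintype.bijective_iff_injective_and_card]
    constructor
    · intro a b hab
      fin_cases a <;> fin_cases b <;> simp [f, hij, Ne.symm hij] at hab ⊢
    · rw [Fintype.card_coe, Finset.card_pair hij, Fintype.card_fin]
  let e : Fin 2 ≃ ({i, j} : Finset (Fin n)) := Equiv.ofBijective f hf
  rw [← Matrix.det_submatrix_equiv_self e, Matrix.det_fin_two]
  simp [e, f]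

end algebra

section valuation

lemma coe_lt_add {r s : ℝ} {x y : WithTop ℝ} (h1 : (r : WithTop ℝ) < x)
    (h2 : (s : WithTop ℝ) < y) : ((r + s : ℝ) : WithTop ℝ) < x + y := by
  induction x using WithTop.recTopCoe with
  | top => simp
  | coe x =>
    induction y using WithTop.recTopCoe with
    | top => simp
    | coe y =>
      rw [← WithTop.coe_add, WithTop.coe_lt_coe]
      rw [WithTop.coe_lt_coe] at h1 h2
      linarith

lemma coe_lt_of_add_self {r : ℝ} {x : WithTop ℝ} (h : ((r + r : ℝ) : WithTop ℝ) < x + x) :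
    (r : WithTop ℝ) < x := by
  induction x using WithTop.recTopCoe with
  | top => simp
  | coe x =>
    rw [← WithTop.coe_add, WithTop.coe_lt_coe] at h
    rw [WithTop.coe_lt_coe]
    linarith

variable {K : Type*} [Field K] {n : ℕ} {ν : K → WithTop ℝ}

lemma IsNonarchValuation.zero (hν : IsNonarchValuation ν) : ν 0 = ⊤ := (hν.eq_top_iff 0).mpr rfl

lemma IsNonarchValuation.one (hν : IsNonarchValuation ν) : ν 1 = 0 := by
  have h1 : ν 1 ≠ ⊤ := fun h => one_ne_zero ((hν.eq_top_iff 1).mp h)
  have h2 := hν.map_mul 1 1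
  rw [mul_one] at h2
  obtain ⟨x, hx⟩ := WithTop.ne_top_iff_exists.mp h1
  rw [← hx, ← WithTop.coe_add, WithTop.coe_inj] at h2
  rw [← hx]
  have : x = 0 := by linarith
  rw [this]; rfl

lemma IsNonarchValuation.neg (hν : IsNonarchValuation ν) (a : K) : ν (-a) = ν a := by
  have h1 : ν (-1 : K) ≠ ⊤ := fun h => (neg_ne_zero.mpr one_ne_zero) ((hν.eq_top_iff (-1)).mp h)
  have h2 := hν.map_mul (-1) (-1)
  rw [neg_mul_neg, mul_one, hν.one] at h2
  obtain ⟨x, hx⟩ := WithTop.ne_top_iff_exists.mp h1
  have h3 : ν (-1 : K) = 0 := by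
    rw [← hx, ← WithTop.coe_add] at h2
    have h4 : (0 : ℝ) = x + x := by exact_mod_cast h2
    rw [← hx]
    have : x = 0 := by linarith
    rw [this]; rfl
  rw [← neg_one_mul, hν.map_mul, h3, zero_add]

lemma IsNonarchValuation.lt_sum (hν : IsNonarchValuation ν) {ι : Type*} (s : Finset ι)
    (f : ι → K) (r : ℝ) (h : ∀ i ∈ s, (r : WithTop ℝ) < ν (f i)) :
    (r : WithTop ℝ) < ν (∑ i ∈ s, f i) := by
  classical
  induction s using Finset.induction_on with
  | empty => simp [hν.zero]
  | insert a s ha ih =>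
    rw [Finset.sum_insert ha]
    refine lt_of_lt_of_le (lt_min ?_ ?_) (hν.min_le_map_add _ _)
    · exact h a (Finset.mem_insert_self a s)
    · exact ih (fun i hi => h i (Finset.mem_insert_of_mem hi))

lemma IsNonarchValuation.lt_prod (hν : IsNonarchValuation ν) {ι : Type*} (s : Finset ι)
    (hs : s.Nonempty) (f : ι → K) (θ : ι → ℝ) (h : ∀ i ∈ s, (θ i : WithTop ℝ) < ν (f i)) :
    ((∑ i ∈ s, θ i : ℝ) : WithTop ℝ) < ν (∏ i ∈ s, f i) := by
  classical
  induction hs using Finset.Nonempty.cons_induction with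
  | singleton a => simpa using h a (Finset.mem_singleton_self a)
  | cons a s ha hs ih =>
    rw [Finset.sum_cons, Finset.prod_cons, hν.map_mul]
    exact coe_lt_add (h a (Finset.mem_cons_self a s))
      (ih (fun i hi => h i (Finset.mem_cons_of_mem hi)))

/-- Core of the argument. -/
lemma core (hν : IsNonarchValuation ν) (σ : K ≃+* K) (hσσ : ∀ a, σ (σ a) = a)
    (hσν : ∀ a, ν (σ a) = ν a) (A : Matrix (Fin n) (Fin n) K)
    (hrank : (A + starMat σ A).rank ≤ 1) (θ : Fin n → ℝ) (U : Finset (Fin n))
    (hU : 3 ≤ U.card)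
    (h : ∀ X ⊆ U, X.Nonempty → X ≠ U →
      ((∑ i ∈ X, θ i : ℝ) : WithTop ℝ) < ν (principalMinor A X)) :
    ((∑ i ∈ U, θ i : ℝ) : WithTop ℝ) < ν (principalMinor A U) := by
  classical
  have hdiag : ∀ i ∈ U, (θ i : WithTop ℝ) < ν (A i i) := by
    intro i hi
    have := h {i} (by simpa using hi) ⟨i, by simp⟩ (by
      rintro rfl
      simp at hU)
    simpa [principalMinor_singleton] using this
  have hpair : ∀ i ∈ U, ∀ j ∈ U, i ≠ j →
      ((θ i + θ j : ℝ) : WithTop ℝ) < ν (A i i * A j j - A i j * A j i) := by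
    intro i hi j hj hij
    have := h {i, j} (by
      intro x hx
      rcases Finset.mem_insert.mp hx with rfl | hx
      · exact hi
      · rw [Finset.mem_singleton.mp hx]; exact hj) ⟨i, by simp⟩ (by
      rintro rfl
      rw [Finset.card_pair hij] at hU
      omega)
    rwa [Finset.sum_pair hij, principalMinor_pair A hij] at this
  set H := A + starMat σ A with hH
  have hHij : ∀ i j, H i j = A i j + σ (A j i) := fun i j => by simp [hH, starMat]
  have hHσ : ∀ i j, σ (H i j) = H j i := fun i j => by
    rw [hHij, hHij, map_add, hσσ, add_comm]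
  have hHdiag : ∀ i ∈ U, (θ i : WithTop ℝ) < ν (H i i) := by
    intro i hi
    rw [hHij]
    exact lt_of_lt_of_le (lt_min (hdiag i hi) (by rw [hσν]; exact hdiag i hi))
      (hν.min_le_map_add _ _)
  have hHoff : ∀ i ∈ U, ∀ j ∈ U, (((θ i + θ j) / 2 : ℝ) : WithTop ℝ) < ν (H i j) := by
    intro i hi j hj
    apply coe_lt_of_add_self
    have h1 : ν (H i j) + ν (H i j) = ν (H i i) + ν (H j j) := by
      have h2 := minor_two_eq_zero H hrank i j
      have h3 : ν (H j i) = ν (H i j) := by rw [← hHσ i j, hσν]
      rw [← hν.map_mul (H i i), ← h2, hν.map_mul, h3]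
    rw [h1, add_halves]
    exact coe_lt_add (hHdiag i hi) (hHdiag j hj)
  have hoff : ∀ i ∈ U, ∀ j ∈ U, (((θ i + θ j) / 2 : ℝ) : WithTop ℝ) < ν (A i j) := by
    intro i hi j hj
    by_cases hij : i = j
    · subst hij
      have : (θ i + θ i) / 2 = θ i := by ring
      rw [this]; exact hdiag i hi
    by_contra hle
    rw [not_lt] at hle
    -- `ν (A j i) ≤ τ`
    have hji : ν (A j i) ≤ (((θ i + θ j) / 2 : ℝ) : WithTop ℝ) := by
      by_contra hlt
      rw [not_le] at hlt
      -- then `σ (A i j) = H j i - A j i` has large valuation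
      have h1 : σ (A i j) = H j i + (-A j i) := by rw [hHij]; ring
      have h2 : (((θ i + θ j) / 2 : ℝ) : WithTop ℝ) < ν (σ (A i j)) := by
        rw [h1]
        refine lt_of_lt_of_le (lt_min ?_ ?_) (hν.min_le_map_add _ _)
        · have := hHoff j hj i hi
          rwa [add_comm (θ j)] at this
        · rw [hν.neg]; exact hlt
      rw [hσν] at h2
      exact absurd h2 (not_lt.mpr hle)
    have h3 : ν (A i j * A j i) ≤ ((θ i + θ j : ℝ) : WithTop ℝ) := by
      rw [hν.map_mul]
      calc ν (A i j) + ν (A j i)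
          ≤ (((θ i + θ j) / 2 : ℝ) : WithTop ℝ) + (((θ i + θ j) / 2 : ℝ) : WithTop ℝ) :=
            add_le_add hle hji
        _ = ((θ i + θ j : ℝ) : WithTop ℝ) := by rw [← WithTop.coe_add, add_halves]
    have h4 : ((θ i + θ j : ℝ) : WithTop ℝ) < ν (A i j * A j i) := by
      have h5 : A i j * A j i = A i i * A j j + (-(A i i * A j j - A i j * A j i)) := by ring
      rw [h5]
      refine lt_of_lt_of_le (lt_min ?_ ?_) (hν.min_le_map_add _ _)
      · rw [hν.map_mul]; exact coe_lt_add (hdiag i hi) (hdiag j hj)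
      · rw [hν.neg]; exact hpair i hi j hj hij
    exact absurd h4 (not_lt.mpr h3)
  unfold principalMinor
  rw [Matrix.det_apply']
  apply hν.lt_sum
  intro τ _
  have hUne : (Finset.univ : Finset U).Nonempty := by
    have : 0 < U.card := by omega
    obtain ⟨x, hx⟩ := Finset.card_pos.mp this
    exact ⟨⟨x, hx⟩, Finset.mem_univ _⟩
  have hsum : (∑ i ∈ U, θ i) = ∑ i : U, (θ (τ i) + θ i) / 2 := by
    rw [← Finset.sum_div, Finset.sum_add_distrib, Equiv.sum_comp τ (fun i : U => θ i),
      Finset.sum_coe_sort U θ]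
    ring
  have hsign : ν (((Equiv.Perm.sign τ : ℤˣ) : ℤ) : K) = 0 := by
    rcases Int.units_eq_one_or (Equiv.Perm.sign τ) with h | h
    · rw [h]; simp [hν.one]
    · rw [h]; simp [hν.neg, hν.one]
  rw [hν.map_mul, hsign, zero_add, hsum]
  apply hν.lt_prod _ hUne
  intro i _
  exact hoff _ (τ i).2 _ i.2

end valuation

section geometry

variable {n : ℕ}

lemma cubeVertex_injective :
    Function.Injective (cubeVertex : Finset (Fin n) → Fin n → ℝ) := by
  intro S T h
  ext i
  have := congrFun h i
  by_cases h1 : i ∈ S <;> by_cases h2 : i ∈ T <;> simp [cubeVertex, h1, h2] at this ⊢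

lemma cubeVertex_zero_or_one (S : Finset (Fin n)) (i : Fin n) :
    cubeVertex S i = 0 ∨ cubeVertex S i = 1 := by
  unfold cubeVertex
  split_ifs <;> simp

lemma not_three_collinear {S T U : Finset (Fin n)} (hST : S ≠ T) (hSU : S ≠ U) (hTU : T ≠ U)
    (a d : Fin n → ℝ) (s t u : ℝ) (hs : cubeVertex S = a + s • d)
    (ht : cubeVertex T = a + t • d) (hu : cubeVertex U = a + u • d) : False := by
  have hne : ∀ {X Y : Finset (Fin n)} {x y : ℝ}, X ≠ Y → cubeVertex X = a + x • d →
      cubeVertex Y = a + y • d → x ≠ y := by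
    intro X Y x y hXY hX hY hxy
    apply hXY
    apply cubeVertex_injective
    rw [hX, hY, hxy]
  have h1 := hne hST hs ht
  have h2 := hne hSU hs hu
  have h3 := hne hTU ht hu
  have hd : d ≠ 0 := by
    rintro rfl
    apply hST
    apply cubeVertex_injective
    rw [hs, ht]; simp
  obtain ⟨i, hi⟩ := Function.ne_iff.mp hd
  have es := congrFun hs i
  have et := congrFun ht i
  have eu := congrFun hu i
  simp only [Pi.add_apply, Pi.smul_apply, smul_eq_mul, Pi.zero_apply] at es et eu hi
  have key : ∀ {x y : ℝ}, x ≠ y → a i + x * d i = a i + y * d i → False := by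
    intro x y hxy h
    apply hxy
    have : x * d i = y * d i := by linarith
    exact mul_right_cancel₀ hi this
  rcases cubeVertex_zero_or_one S i with hS | hS <;>
  rcases cubeVertex_zero_or_one T i with hT | hT <;>
  rcases cubeVertex_zero_or_one U i with hU | hU
  all_goals first
    | exact key h1 (es.symm.trans ((hS.trans hT.symm).trans et))
    | exact key h2 (es.symm.trans ((hS.trans hU.symm).trans eu))
    | exact key h3 (et.symm.trans ((hT.trans hU.symm).trans eu))

/-- the functional `(x, t) ↦ w · x + t`. -/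
def functional (w : Fin n → ℝ) : ((Fin n → ℝ) × ℝ) →ₗ[ℝ] ℝ where
  toFun z := w ⬝ᵥ z.1 + z.2
  map_add' x y := by simp [dotProduct_add]; ring
  map_smul' r x := by simp [dotProduct_smul]; ring

lemma edge_vertices (p : Finset (Fin n) → WithTop ℝ) (a b : Fin n → ℝ) (hab : a ≠ b)
    (hcell : IsCell p (segment ℝ a b)) :
    ∃ (w : Fin n → ℝ) (c : ℝ) (S T : Finset (Fin n)), S ≠ T ∧
      p S = ((c - w ⬝ᵥ cubeVertex S : ℝ) : WithTop ℝ) ∧
      p T = ((c - w ⬝ᵥ cubeVertex T : ℝ) : WithTop ℝ) ∧
      (∀ X, X ≠ S → X ≠ T → ((c - w ⬝ᵥ cubeVertex X : ℝ) : WithTop ℝ) < p X) ∧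
      ∃ r : ℝ, b - a = r • (cubeVertex T - cubeVertex S) := by
  obtain ⟨F, ⟨w, hF⟩, hseg⟩ := hcell
  set L := liftedPoints p with hL
  have hmem : ∀ x ∈ segment ℝ a b, ∃ z, z.1 = x ∧ z ∈ convexHull ℝ L ∧
      ∀ y ∈ convexHull ℝ L, functional w z ≤ functional w y := by
    intro x hx
    rw [hseg] at hx
    obtain ⟨z, hz, rfl⟩ := hx
    rw [hF] at hz
    exact ⟨z, rfl, hz.1, hz.2⟩
  obtain ⟨za, hza1, hza2, hza3⟩ := hmem a (left_mem_segment ℝ a b)
  obtain ⟨zb, hzb1, hzb2, hzb3⟩ := hmem b (right_mem_segment ℝ a b)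
  set c := functional w za with hc
  have hcb : functional w zb = c := le_antisymm (hzb3 za hza2) (hza3 zb hzb2)
  have hLc : ∀ y ∈ L, c ≤ functional w y := fun y hy => hza3 y (subset_convexHull ℝ L hy)
  -- first minimiser
  have hex1 : ∃ z0 ∈ L, functional w z0 = c := by
    by_contra hcon
    push Not at hcon
    have hsub : L ⊆ {z | c < functional w z} := fun y hy =>
      lt_of_le_of_ne (hLc y hy) (Ne.symm (hcon y hy))
    have hconv : Convex ℝ {z | c < functional w z} :=
      convex_halfSpace_gt (functional w).isLinear c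
    have := convexHull_min hsub hconv hza2
    exact lt_irrefl c this
  obtain ⟨z0, hz0L, hz0c⟩ := hex1
  have hex2 : ∃ z1 ∈ L, functional w z1 = c ∧ z1 ≠ z0 := by
    by_contra hcon
    push Not at hcon
    have hsub : L ⊆ {z | c < functional w z ∨ z = z0} := fun y hy => by
      by_cases h : functional w y = c
      · exact Or.inr (hcon y hy h)
      · exact Or.inl (lt_of_le_of_ne (hLc y hy) (Ne.symm h))
    have hconv : Convex ℝ {z | c < functional w z ∨ z = z0} := by
      intro x hx y hy α β hα hβ hαβ
      simp only [Set.mem_ofPred_eq] at hx hy ⊢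
      rw [map_add, map_smul, map_smul, smul_eq_mul, smul_eq_mul]
      rcases eq_or_lt_of_le hα with h0 | h0
      · have : β = 1 := by linarith
        subst this; subst h0
        simpa using hy
      rcases eq_or_lt_of_le hβ with h1 | h1
      · have : α = 1 := by linarith
        subst this; subst h1
        simpa using hx
      rcases hx with hx | rfl
      · left
        have hy' : c ≤ functional w y := by
          rcases hy with hy | rfl
          · exact hy.le
          · exact hz0c.ge
        calc c = α * c + β * c := by rw [← add_mul, hαβ, one_mul]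
          _ < α * functional w x + β * functional w y :=
            add_lt_add_of_lt_of_le (mul_lt_mul_of_pos_left hx h0)
              (mul_le_mul_of_nonneg_left hy' hβ)
      · rcases hy with hy | rfl
        · left
          rw [hz0c]
          calc c = α * c + β * c := by rw [← add_mul, hαβ, one_mul]
            _ < α * c + β * functional w y :=
              add_lt_add_of_le_of_lt le_rfl (mul_lt_mul_of_pos_left hy h1)
        · right
          rw [← add_smul, hαβ, one_smul]
    have h1 := convexHull_min hsub hconv hza2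
    have h2 := convexHull_min hsub hconv hzb2
    simp only [Set.mem_ofPred_eq] at h1 h2
    have h1' : za = z0 := by
      rcases h1 with h1 | h1
      · exact absurd h1 (lt_irrefl _)
      · exact h1
    have h2' : zb = z0 := by
      rcases h2 with h2 | h2
      · rw [hcb] at h2; exact absurd h2 (lt_irrefl _)
      · exact h2
    apply hab
    rw [← hza1, ← hzb1, h1', h2']
  obtain ⟨z1, hz1L, hz1c, hz10⟩ := hex2
  obtain ⟨S, hS1, hS2⟩ := hz0L
  obtain ⟨T, hT1, hT2⟩ := hz1L
  have hval : ∀ (X : Finset (Fin n)) (t : ℝ), p X = (t : WithTop ℝ) →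
      functional w (cubeVertex X, t) = c → t = c - w ⬝ᵥ cubeVertex X := by
    intro X t _ h
    have : w ⬝ᵥ cubeVertex X + t = c := h
    linarith
  have hseg' : ∀ (X : Finset (Fin n)) (t : ℝ), p X = (t : WithTop ℝ) →
      functional w (cubeVertex X, t) = c → cubeVertex X ∈ segment ℝ a b := by
    intro X t hX hXc
    rw [hseg]
    refine ⟨(cubeVertex X, t), ?_, rfl⟩
    rw [hF]
    refine ⟨subset_convexHull ℝ L ⟨X, rfl, hX⟩, ?_⟩
    intro y hy
    have h1 := hza3 y hy
    have h2 : functional w (cubeVertex X, t) ≤ functional w y := by rw [hXc]; exact h1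
    exact h2
  have hz0' : z0 = (cubeVertex S, z0.2) := by rw [← hS1]
  have hz1' : z1 = (cubeVertex T, z1.2) := by rw [← hT1]
  have hSc : functional w (cubeVertex S, z0.2) = c := by rw [← hz0']; exact hz0c
  have hTc : functional w (cubeVertex T, z1.2) = c := by rw [← hz1']; exact hz1c
  have hST : S ≠ T := by
    rintro rfl
    apply hz10
    have : z1.2 = z0.2 := by
      rw [hval _ _ hT2 hTc, hval _ _ hS2 hSc]
    rw [hz0', hz1', this]
  have hSseg := hseg' S _ hS2 hSc
  have hTseg := hseg' T _ hT2 hTc
  rw [segment_eq_image'] at hSseg hTseg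
  obtain ⟨s, _, hs⟩ := hSseg
  obtain ⟨t, _, ht⟩ := hTseg
  simp only at hs ht
  refine ⟨w, c, S, T, hST, ?_, ?_, ?_, ?_⟩
  · rw [hS2, hval _ _ hS2 hSc]
  · rw [hT2, hval _ _ hT2 hTc]
  · intro X hXS hXT
    rcases hpX : p X with _ | x
    · exact WithTop.coe_lt_top _
    · have hX : p X = (x : WithTop ℝ) := hpX
      have h1 : c ≤ functional w (cubeVertex X, x) := hLc _ ⟨X, rfl, hX⟩
      have h2 : functional w (cubeVertex X, x) ≠ c := by
        intro h
        have h3 := hseg' X x hX h
        rw [segment_eq_image'] at h3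
        obtain ⟨u, _, hu⟩ := h3
        exact not_three_collinear hST hXS.symm hXT.symm a (b - a) s t u hs.symm ht.symm hu.symm
      have h3 : c < w ⬝ᵥ cubeVertex X + x := lt_of_le_of_ne h1 (Ne.symm h2)
      have h4 : c - w ⬝ᵥ cubeVertex X < x := by linarith
      exact WithTop.coe_lt_coe.mpr h4
  · have hts : t - s ≠ 0 := by
      intro h
      apply hST
      apply cubeVertex_injective
      rw [← hs, ← ht, sub_eq_zero.mp h]
    refine ⟨(t - s)⁻¹, ?_⟩
    rw [← hs, ← ht, add_sub_add_left_eq_sub, ← sub_smul, smul_smul, inv_mul_cancel₀ hts, one_smul]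

lemma direction_of_card_le_two {S T : Finset (Fin n)} (hST : S ≠ T)
    (hcard : (symmDiff S T).card ≤ 2) (r : ℝ) :
    ∃ (r' : ℝ) (d : Fin n → ℝ), IsDeltaDirection d ∧
      r • (cubeVertex T - cubeVertex S) = r' • d := by
  have hpos : 0 < (symmDiff S T).card := by
    rw [Finset.card_pos, Finset.nonempty_iff_ne_empty]
    intro h
    exact hST (symmDiff_eq_bot.mp h)
  have hout : ∀ k, k ∉ symmDiff S T → cubeVertex T k - cubeVertex S k = 0 := by
    intro k hk
    rw [Finset.mem_symmDiff] at hk
    by_cases h1 : k ∈ S <;> by_cases h2 : k ∈ T <;> simp_all [cubeVertex]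
  have hin : ∀ k, k ∈ symmDiff S T → cubeVertex T k - cubeVertex S k = 1 ∨
      cubeVertex T k - cubeVertex S k = -1 := by
    intro k hk
    rw [Finset.mem_symmDiff] at hk
    by_cases h1 : k ∈ S <;> by_cases h2 : k ∈ T <;> simp_all [cubeVertex]
  have hc : (symmDiff S T).card = 1 ∨ (symmDiff S T).card = 2 := by omega
  rcases hc with h1 | h2
  · obtain ⟨i, hi⟩ := Finset.card_eq_one.mp h1
    rw [hi] at hout hin
    rcases hin i (by simp) with h | h
    · refine ⟨r, Pi.single i 1, Or.inl ⟨i, rfl⟩, ?_⟩
      congr 1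
      ext k
      by_cases hk : k = i
      · subst hk; simpa using h
      · simpa [hk] using hout k (by simpa using hk)
    · refine ⟨-r, Pi.single i 1, Or.inl ⟨i, rfl⟩, ?_⟩
      rw [neg_smul, ← smul_neg]
      congr 1
      ext k
      by_cases hk : k = i
      · subst hk; simpa using h
      · simpa [hk] using hout k (by simpa using hk)
  · obtain ⟨i, j, hij, hi⟩ := Finset.card_eq_two.mp h2
    rw [hi] at hout hin
    have key : ∀ (ε δ : ℝ), cubeVertex T i - cubeVertex S i = ε →
        cubeVertex T j - cubeVertex S j = δ →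
        cubeVertex T - cubeVertex S = ε • Pi.single i 1 + δ • Pi.single j 1 := by
      intro ε δ hε hδ
      ext k
      simp only [Pi.sub_apply, Pi.add_apply, Pi.smul_apply, smul_eq_mul]
      by_cases hk : k = i
      · subst hk; simp [hε, hij]
      · by_cases hk' : k = j
        · subst hk'; simp [hδ, hk]
        · rw [hout k (by simp [hk, hk'])]
          simp [hk, hk']
    rcases hin i (by simp) with h | h <;> rcases hin j (by simp) with h' | h'
    · refine ⟨r, Pi.single i 1 + Pi.single j 1, Or.inr ⟨i, j, hij, Or.inl rfl⟩, ?_⟩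
      rw [key _ _ h h']; simp
    · refine ⟨r, Pi.single i 1 - Pi.single j 1, Or.inr ⟨i, j, hij, Or.inr rfl⟩, ?_⟩
      rw [key _ _ h h']; simp [sub_eq_add_neg]
    · refine ⟨-r, Pi.single i 1 - Pi.single j 1, Or.inr ⟨i, j, hij, Or.inr rfl⟩, ?_⟩
      rw [key _ _ h h']
      ext k
      simp only [Pi.smul_apply, Pi.add_apply, Pi.sub_apply, smul_eq_mul]
      ring
    · refine ⟨-r, Pi.single i 1 + Pi.single j 1, Or.inr ⟨i, j, hij, Or.inl rfl⟩, ?_⟩
      rw [key _ _ h h']
      ext k
      simp only [Pi.smul_apply, Pi.add_apply, smul_eq_mul]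
      ring

end geometry

section main

variable {K : Type*} [Field K] {n : ℕ} {ν : K → WithTop ℝ}

lemma dot_shift (w : Fin n → ℝ) (S X : Finset (Fin n)) :
    w ⬝ᵥ cubeVertex S - w ⬝ᵥ cubeVertex (symmDiff S X)
      = ∑ i ∈ X, (if i ∈ S then w i else - w i) := by
  have h : ∀ i, w i * cubeVertex S i - w i * cubeVertex (symmDiff S X) i
      = if i ∈ X then (if i ∈ S then w i else - w i) else 0 := by
    intro i
    by_cases h1 : i ∈ S <;> by_cases h2 : i ∈ X <;>
      simp [cubeVertex, Finset.mem_symmDiff, h1, h2]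
  rw [dotProduct, dotProduct, ← Finset.sum_sub_distrib, Finset.sum_congr rfl (fun i _ => h i)]
  simp

theorem main (hν : IsNonarchValuation ν) (σ : K ≃+* K) (hσσ : ∀ a, σ (σ a) = a)
    (hσν : ∀ a, ν (σ a) = ν a) (A : Matrix (Fin n) (Fin n) K)
    (hrank : (A + starMat σ A).rank ≤ 1) :
    IsValuatedDeltaMatroid fun S => ν (principalMinor A S) := by
  intro a b hab hcell
  obtain ⟨w, c, S, T, hST, hS, hT, hX, r, hr⟩ := edge_vertices _ a b hab hcell
  rw [hr]
  suffices h : (symmDiff S T).card ≤ 2 from direction_of_card_le_two hST h r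
  by_contra hcard
  push Not at hcard
  have hSne : principalMinor A S ≠ 0 := by
    intro h
    rw [h, hν.zero] at hS
    exact WithTop.coe_ne_top hS.symm
  have hfac : ∀ X, ν (principalMinor (pivot A S) X) + ν (principalMinor A S)
      = ν (principalMinor A (symmDiff S X)) := by
    intro X
    rw [← hν.map_mul, principalMinor_pivot A S X hSne]
  have hcore := core hν σ hσσ hσν (pivot A S) ((rank_pivot σ A S hSne).trans hrank)
    (fun i => if i ∈ S then w i else - w i) (symmDiff S T) hcard ?_
  · have h1 := hfac (symmDiff S T)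
    rw [symmDiff_symmDiff_cancel_left] at h1
    rw [hS, hT] at h1
    rw [← dot_shift w S (symmDiff S T), symmDiff_symmDiff_cancel_left] at hcore
    have h2 : ((c - w ⬝ᵥ cubeVertex T : ℝ) : WithTop ℝ)
        < ν (principalMinor (pivot A S) (symmDiff S T)) +
          ((c - w ⬝ᵥ cubeVertex S : ℝ) : WithTop ℝ) := by
      have h3 : c - w ⬝ᵥ cubeVertex T
          = (w ⬝ᵥ cubeVertex S - w ⬝ᵥ cubeVertex T) + (c - w ⬝ᵥ cubeVertex S) := by ring
      rw [h3, WithTop.coe_add]
      exact WithTop.add_lt_add_right (WithTop.coe_ne_top) hcore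
    rw [h1] at h2
    exact lt_irrefl _ h2
  · intro X hXU hXne hXU'
    rw [← dot_shift]
    by_contra hle
    rw [not_lt] at hle
    have h1 := hfac X
    rw [hS] at h1
    have h2 : ((c - w ⬝ᵥ cubeVertex (symmDiff S X) : ℝ) : WithTop ℝ)
        < ν (principalMinor A (symmDiff S X)) := by
      apply hX
      · intro h
        rw [symmDiff_eq_left] at h
        exact hXne.ne_empty h
      · intro h
        apply hXU'
        rw [← h, symmDiff_symmDiff_cancel_left]
    have h3 : ν (principalMinor A (symmDiff S X))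
        ≤ ((c - w ⬝ᵥ cubeVertex (symmDiff S X) : ℝ) : WithTop ℝ) := by
      rw [← h1]
      have h4 : c - w ⬝ᵥ cubeVertex (symmDiff S X)
          = (w ⬝ᵥ cubeVertex S - w ⬝ᵥ cubeVertex (symmDiff S X))
            + (c - w ⬝ᵥ cubeVertex S) := by ring
      rw [h4, WithTop.coe_add]
      exact add_le_add hle le_rfl
    exact absurd h2 (not_lt.mpr h3)

end main

end Pool.Agent.Helper73.ValuatedDelta
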