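import Pool.Agent.Helper73.ValuatedDeltaDefs

set_option autoImplicit false

/-!
Sanity check: the notion `IsValuatedDeltaMatroid` is not vacuous.  The function on subsets of a
three-element set with value `0` at `∅` and at the full set and `∞` elsewhere is not a valuated
Delta-matroid, since its only edge has direction `e_0 + e_1 + e_2`.
-/

namespace Pool.Agent.Helper73.ValuatedDelta

open Matrix

theorem exists_not_isValuatedDeltaMatroid :
    ∃ p : Finset (Fin 3) → WithTop ℝ, p ∅ = 0 ∧ ¬ IsValuatedDeltaMatroid p := by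
  refine ⟨fun S => if S = ∅ ∨ S = Finset.univ then 0 else ⊤, by simp, ?_⟩
  intro h
  have hL : liftedPoints (fun S : Finset (Fin 3) => if S = ∅ ∨ S = Finset.univ then (0 : WithTop ℝ)
      else ⊤) = {((0 : Fin 3 → ℝ), (0 : ℝ)), ((1 : Fin 3 → ℝ), (0 : ℝ))} := by
    ext z
    constructor
    · rintro ⟨S, h1, h2⟩
      by_cases hS : S = ∅ ∨ S = Finset.univ
      · simp only [hS, if_true] at h2
        have h3 : z.2 = 0 := by exact_mod_cast h2.symm
        rcases hS with rfl | rfl
        · left
          refine Prod.ext ?_ h3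
          rw [h1]; ext i; simp [cubeVertex]
        · right
          refine Prod.ext ?_ h3
          rw [h1]; ext i; simp [cubeVertex]
      · simp only [hS, if_false] at h2
        exact absurd h2 (WithTop.coe_ne_top).symm
    · rintro (rfl | rfl)
      · refine ⟨∅, ?_, by simp⟩
        ext i; simp [cubeVertex]
      · refine ⟨Finset.univ, ?_, by simp⟩
        ext i; simp [cubeVertex]
  have hcell : IsCell (fun S : Finset (Fin 3) => if S = ∅ ∨ S = Finset.univ then (0 : WithTop ℝ)
      else ⊤) (segment ℝ (0 : Fin 3 → ℝ) 1) := by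
    refine ⟨convexHull ℝ (liftedPoints (fun S : Finset (Fin 3) =>
      if S = ∅ ∨ S = Finset.univ then (0 : WithTop ℝ) else ⊤)), ⟨0, ?_⟩, ?_⟩
    · ext z
      constructor
      · intro hz
        refine ⟨hz, fun y hy => ?_⟩
        have key : ∀ x ∈ convexHull ℝ (liftedPoints (fun S : Finset (Fin 3) =>
            if S = ∅ ∨ S = Finset.univ then (0 : WithTop ℝ) else ⊤)), x.2 = 0 := by
          intro x hx
          rw [hL, convexHull_pair] at hx
          obtain ⟨α, β, _, _, _, rfl⟩ := hx
          simp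
        rw [key z hz, key y hy]
        simp
      · intro hz; exact hz.1
    · rw [hL, convexHull_pair]
      ext x
      constructor
      · rintro ⟨α, β, hα, hβ, hαβ, rfl⟩
        exact ⟨α • ((0 : Fin 3 → ℝ), (0 : ℝ)) + β • ((1 : Fin 3 → ℝ), (0 : ℝ)),
          ⟨α, β, hα, hβ, hαβ, rfl⟩, by simp⟩
      · rintro ⟨z, ⟨α, β, hα, hβ, hαβ, rfl⟩, rfl⟩
        exact ⟨α, β, hα, hβ, hαβ, by simp⟩
  obtain ⟨r, d, hd, hrd⟩ := h 0 1 (by
    intro h
    have := congrFun h 0
    simp at this) hcell
  have h0 := congrFun hrd 0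
  have h1 := congrFun hrd 1
  have h2 := congrFun hrd 2
  rcases hd with ⟨i, rfl⟩ | ⟨i, j, _, rfl | rfl⟩
  · fin_cases i <;> simp at h0 h1 h2
  · fin_cases i <;> fin_cases j <;> simp at h0 h1 h2
  · fin_cases i <;> fin_cases j <;> simp at h0 h1 h2

end Pool.Agent.Helper73.ValuatedDelta
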